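import Pool.Agent.MP_dcb13e_co.H59.Defs

/-! Connected sets, clique minors, rooted trees. -/

namespace Pool.Agent.MP_dcb13e_co.H59

open Relation

variable {V : Type} {G : SimpleGraph V}

/-- any two vertices of `S` are joined inside `S` -/
def Pc (G : SimpleGraph V) (S : Set V) : Prop :=
  ∀ a ∈ S, ∀ b ∈ S, ReflTransGen (fun u v => G.Adj u v ∧ u ∈ S ∧ v ∈ S) a b

/-- some edge joins `A` to `B` -/
def AdjS (G : SimpleGraph V) (A B : Set V) : Prop := ∃ u ∈ A, ∃ v ∈ B, G.Adj u v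

/-- a clique minor -/
def KM (G : SimpleGraph V) (t : ℕ) : Prop :=
  ∃ B : Fin t → Set V, (∀ i, (B i).Nonempty ∧ Pc G (B i)) ∧
    (∀ i j, i ≠ j → Disjoint (B i) (B j)) ∧ ∀ i j, i ≠ j → AdjS G (B i) (B j)

lemma AdjS.symm {A B : Set V} (h : AdjS G A B) : AdjS G B A := by
  obtain ⟨u, hu, v, hv, h⟩ := h
  exact ⟨v, hv, u, hu, h.symm⟩

lemma AdjS.mono {A B A' B' : Set V} (h : AdjS G A B) (hA : A ⊆ A') (hB : B ⊆ B') :
    AdjS G A' B' := by
  obtain ⟨u, hu, v, hv, h⟩ := h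
  exact ⟨u, hA hu, v, hB hv, h⟩

lemma rtg_symm {α : Type} {r : α → α → Prop} (hs : ∀ u v, r u v → r v u) {a b : α}
    (h : ReflTransGen r a b) : ReflTransGen r b a := by
  induction h with
  | refl => exact ReflTransGen.refl
  | tail _ h ih => exact ReflTransGen.head (hs _ _ h) ih

lemma rtg_mono {α : Type} {r p : α → α → Prop} (h : ∀ u v, r u v → p u v) {a b : α}
    (hab : ReflTransGen r a b) : ReflTransGen p a b := by
  induction hab with
  | refl => exact ReflTransGen.refl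
  | tail _ h2 ih => exact ih.tail (h _ _ h2)

lemma inS_symm {S : Set V} {a b : V}
    (h : ReflTransGen (fun u v => G.Adj u v ∧ u ∈ S ∧ v ∈ S) a b) :
    ReflTransGen (fun u v => G.Adj u v ∧ u ∈ S ∧ v ∈ S) b a :=
  rtg_symm (fun _ _ h => ⟨h.1.symm, h.2.2, h.2.1⟩) h

lemma inS_mono {S S' : Set V} (hS : S ⊆ S') {a b : V}
    (h : ReflTransGen (fun u v => G.Adj u v ∧ u ∈ S ∧ v ∈ S) a b) :
    ReflTransGen (fun u v => G.Adj u v ∧ u ∈ S' ∧ v ∈ S') a b :=
  rtg_mono (fun _ _ h => ⟨h.1, hS h.2.1, hS h.2.2⟩) h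

lemma pc_of_hub {S : Set V} {a : V}
    (h : ∀ s ∈ S, ReflTransGen (fun u v => G.Adj u v ∧ u ∈ S ∧ v ∈ S) a s) : Pc G S :=
  fun x hx y hy => (inS_symm (h x hx)).trans (h y hy)

lemma pc_of_root {S : Set V} {a : V} {f : V → V} {rk : V → ℕ}
    (h : ∀ s ∈ S, s ≠ a → f s ∈ S ∧ G.Adj (f s) s ∧ rk (f s) < rk s) : Pc G S := by
  apply pc_of_hub (a := a)
  intro s hs
  induction' hn : rk s using Nat.strong_induction_on with n ih generalizing s
  by_cases hsa : s = a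
  · subst hsa; exact ReflTransGen.refl
  · obtain ⟨h1, h2, h3⟩ := h s hs hsa
    exact (ih _ (hn ▸ h3) _ h1 rfl).tail ⟨h2, h1, hs⟩

lemma pc_single (a : V) : Pc G {a} := by
  intro x hx y hy
  rw [Set.mem_singleton_iff] at hx hy
  subst hx hy
  exact ReflTransGen.refl

lemma pc_star {ι : Type} {A : Set V} {C : ι → Set V} {I : Set ι} (hA : Pc G A)
    (hne : A.Nonempty) (hC : ∀ i ∈ I, Pc G (C i) ∧ AdjS G A (C i)) :
    Pc G (A ∪ ⋃ i ∈ I, C i) := by
  obtain ⟨a, ha⟩ := hne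
  apply pc_of_hub (a := a)
  intro s hs
  rcases hs with hs | hs
  · exact inS_mono Set.subset_union_left (hA a ha s hs)
  · simp only [Set.mem_iUnion] at hs
    obtain ⟨i, hi, hs⟩ := hs
    obtain ⟨hp, u, hu, v, hv, huv⟩ := hC i hi
    have hsub : C i ⊆ A ∪ ⋃ i ∈ I, C i := fun x hx =>
      Or.inr (by simp only [Set.mem_iUnion]; exact ⟨i, hi, hx⟩)
    exact ((inS_mono Set.subset_union_left (hA a ha u hu)).tail
      ⟨huv, Or.inl hu, hsub hv⟩).trans (inS_mono hsub (hp v hv s hs))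

lemma pc_union {A B : Set V} (hA : Pc G A) (hB : Pc G B) (h : AdjS G A B) : Pc G (A ∪ B) := by
  have := pc_star (ι := Unit) (C := fun _ => B) (I := Set.univ) hA
    (by obtain ⟨u, hu, _⟩ := h; exact ⟨u, hu⟩) (fun _ _ => ⟨hB, h⟩)
  simpa [Set.iUnion_const] using this

lemma pc_cls {e : V → V → Prop} (ha : ∀ u v, e u v → G.Adj u v) (a : V) : Pc G {s | ReflTransGen e a s} := by
  apply pc_of_hub (a := a)
  intro s hs
  induction hs with
  | refl => exact ReflTransGen.refl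
  | tail h1 h2 ih => exact ih.tail ⟨ha _ _ h2, h1, h1.tail h2⟩

/-- two large families of disjoint connected sets, completely joined, give a clique minor -/
lemma few {ι κ : Type} {t : ℕ} (S : Finset ι) (T : Finset κ) (A : ι → Set V) (B : κ → Set V)
    (hS : t ≤ S.card) (hT : t ≤ T.card) (hA : ∀ i ∈ S, Pc G (A i)) (hB : ∀ j ∈ T, Pc G (B j))
    (dA : ∀ i ∈ S, ∀ i' ∈ S, i ≠ i' → Disjoint (A i) (A i'))
    (dB : ∀ j ∈ T, ∀ j' ∈ T, j ≠ j' → Disjoint (B j) (B j'))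
    (dAB : ∀ i ∈ S, ∀ j ∈ T, Disjoint (A i) (B j))
    (ad : ∀ i ∈ S, ∀ j ∈ T, AdjS G (A i) (B j)) : KM G t := by
  obtain ⟨f, hf⟩ : ∃ f : Fin t ↪ ι, ∀ i, f i ∈ S := by
    obtain ⟨f⟩ : Nonempty (Fin t ↪ S) := Function.Embedding.nonempty_of_card_le (by simpa)
    exact ⟨f.trans (Function.Embedding.subtype _), fun i => (f i).2⟩
  obtain ⟨g, hg⟩ : ∃ g : Fin t ↪ κ, ∀ i, g i ∈ T := by
    obtain ⟨f⟩ : Nonempty (Fin t ↪ T) := Function.Embedding.nonempty_of_card_le (by simpa)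
    exact ⟨f.trans (Function.Embedding.subtype _), fun i => (f i).2⟩
  refine ⟨fun i => A (f i) ∪ B (g i), fun i => ⟨?_, ?_⟩, fun i j hij => ?_, fun i j _ => ?_⟩
  · obtain ⟨u, hu, _⟩ := ad _ (hf i) _ (hg i)
    exact ⟨u, Or.inl hu⟩
  · exact pc_union (hA _ (hf i)) (hB _ (hg i)) (ad _ (hf i) _ (hg i))
  · simp only [Set.disjoint_union_left, Set.disjoint_union_right]
    exact ⟨⟨dA _ (hf i) _ (hf j) (f.injective.ne hij), (dAB _ (hf j) _ (hg i)).symm⟩,
      dAB _ (hf i) _ (hg j), dB _ (hg i) _ (hg j) (g.injective.ne hij)⟩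
  · exact (ad _ (hf i) _ (hg j)).mono Set.subset_union_left Set.subset_union_right

lemma KM.isMinor {t : ℕ} (h : KM G t) : IsMinor (⊤ : SimpleGraph (Fin t)) G := by
  obtain ⟨B, h1, h2, h3⟩ := h
  refine ⟨B, fun i => ?_, h2, fun i j hij => h3 i j hij.ne⟩
  obtain ⟨⟨a, ha⟩, hp⟩ := h1 i
  have : Nonempty (B i) := ⟨⟨a, ha⟩⟩
  refine ⟨fun x y => ?_⟩
  have key : ∀ b, ReflTransGen (fun u v => G.Adj u v ∧ u ∈ B i ∧ v ∈ B i) x.1 b →
      ∀ hb : b ∈ B i, (G.induce (B i)).Reachable x ⟨b, hb⟩ := by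
    intro b hb
    induction hb with
    | refl => intro _; exact SimpleGraph.Reachable.refl _
    | tail _ h2 ih =>
      intro hb
      exact (ih h2.2.1).trans (SimpleGraph.Adj.reachable (by simpa using h2.1))
  exact key y.1 (hp _ x.2 _ y.2) y.2

/-- a spanning tree along a relation -/
lemma exists_par {α : Type} (r : α → α → Prop) (a : α) :
    ∃ (par : α → α) (d : α → ℕ), ∀ s, ReflTransGen r a s → s ≠ a →
      r (par s) s ∧ ReflTransGen r a (par s) ∧ d (par s) < d s := by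
  classical
  let St : ℕ → α → Prop := fun n => Nat.rec (fun s => s = a)
    (fun _ P s => P s ∨ ∃ u, P u ∧ r u s) n
  have St0 : ∀ s, St 0 s ↔ s = a := fun s => Iff.rfl
  have StS : ∀ n s, St (n + 1) s ↔ (St n s ∨ ∃ u, St n u ∧ r u s) := fun n s => Iff.rfl
  have h1 : ∀ s, ReflTransGen r a s → ∃ n, St n s := by
    intro s hs
    induction hs with
    | refl => exact ⟨0, rfl⟩
    | tail _ h2 ih =>
      obtain ⟨n, hn⟩ := ih
      exact ⟨n + 1, Or.inr ⟨_, hn, h2⟩⟩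
  have h2 : ∀ n s, St n s → ReflTransGen r a s := by
    intro n
    induction n with
    | zero => intro s hs; rw [St0] at hs; subst hs; exact ReflTransGen.refl
    | succ n ih =>
      intro s hs
      rcases hs with hs | ⟨u, hu, hr⟩
      · exact ih s hs
      · exact (ih u hu).tail hr
  let d : α → ℕ := fun s => sInf {n | St n s}
  have h3 : ∀ s, ∃ u, ReflTransGen r a s → s ≠ a → r u s ∧ ReflTransGen r a u ∧ d u < d s := by
    intro s
    by_cases hs : ReflTransGen r a s ∧ s ≠ a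
    · have hm : St (d s) s := Nat.sInf_mem (h1 s hs.1)
      cases hd : d s with
      | zero => rw [hd, St0] at hm; exact absurd hm hs.2
      | succ n =>
        rw [hd, StS] at hm
        rcases hm with hm | ⟨u, hu, hr⟩
        · have : d s ≤ n := Nat.sInf_le hm
          omega
        · refine ⟨u, fun _ _ => ⟨hr, h2 n u hu, ?_⟩⟩
          have : d u ≤ n := Nat.sInf_le hu
          omega
    · exact ⟨s, fun h h' => absurd ⟨h, h'⟩ hs⟩
  choose par hpar using h3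
  exact ⟨par, d, hpar⟩

lemma exists_bound {α : Type} [Finite α] (f : α → ℕ) : ∃ B, ∀ a, f a < B := by
  obtain ⟨B, hB⟩ := (Set.finite_range f).bddAbove
  exact ⟨B + 1, fun a => Nat.lt_succ_of_le (hB ⟨a, rfl⟩)⟩

end Pool.Agent.MP_dcb13e_co.H59
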