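import Pool.Agent.MP_dcb13e_co.H59.Tree

/-! The case of many labels below the target. -/

namespace Pool.Agent.MP_dcb13e_co.H59

open Relation

variable {V : Type} {G : SimpleGraph V} {S0 S : Sys V} {θ : V → ℕ} {T : Tr V} {an : V → V}

/-- the nodes whose anchors lie on the path from `x0` up to `z` -/
def Tr.Rg (T : Tr V) (an : V → V) (z x0 : V) : Set V :=
  {s | s ∈ T.Z ∧ T.Up (an s) z ∧ T.Up x0 (an s)}

lemma Tr.rg_mono {z z' x0 : V} (h : T.Up z z') : T.Rg an z x0 ⊆ T.Rg an z' x0 :=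
  fun _ hs => ⟨hs.1, hs.2.1.trans h, hs.2.2⟩

lemma rg_hU (h : T.Ok G) (hd : T.Desc S θ) (ha : T.An an) {N : Set V} {z x0 : V}
    (hx : x0 ∈ T.Z) (hn : ¬ HitS S θ N x0) :
    ∀ s ∈ T.Rg an z x0, HitS S θ N s → s ≠ T.root ∧ T.par s ∈ T.Rg an z x0 := by
  intro s hs hh
  have hne : s ≠ an s := fun he => hd.unhit h hx hs.2.2 hn (he ▸ hh)
  obtain ⟨h1, h2⟩ := (ha s hs.1).2.2 hne
  exact ⟨h1, (h s hs.1 h1).1, h2 ▸ hs.2.1, h2 ▸ hs.2.2⟩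

lemma path_step [Finite V] (hv : S.Valid G) (ht : Thr S θ) (h : T.Ok G) (hd : T.Desc S θ)
    (ha : T.An an) (R : Finset V) (hsafe : ∀ N s, ¬ HitS S θ N s → Safe S0 N R s) {t k : ℕ}
    {x0 : V} {p : Set V → V → Prop}
    (hp : ∀ N c, p N c → x0 ∈ T.Z ∧ c ∈ T.Z ∧ ¬ HitS S θ N c ∧ (∀ r ∈ R, r ∈ N) ∧
      ¬ HitS S θ N x0 ∧ T.Up x0 (an c) ∧ (Lab G S θ N (T.Rg an (an c) x0)).ncard < t)
    (hk : t + 1 + R.card ≤ k) : Comp S0 p k (t * 2) := by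
  refine Comp.sendSet t (fun Y N c => p N c ∧ (Y : Set V) = Lab G S θ N (T.Rg an (an c) x0))
    (L' := 2) (fun N c hc => ?_) (fun Y hY => ?_) (by omega) le_rfl
  · obtain ⟨-, -, -, -, -, -, h1⟩ := hp N c hc
    refine ⟨(Set.toFinite (Lab G S θ N (T.Rg an (an c) x0))).toFinset, ?_, fun x hx => ?_, hc,
      by simp⟩
    · rwa [← Set.ncard_eq_toFinset_card]
    · exact Lab.sub (by simpa using hx)
  refine Comp.sendOpt
    (fun N c => p N c ∧ (Y : Set V) ⊆ N ∧ Lab G S θ N (T.Rg an T.root x0) ⊆ Y)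
    (fun y N c => p N c ∧ (Y : Set V) = Lab G S θ N (T.Rg an (an c) x0) ∧ y ∉ (Y : Set V) ∧
      ∃ s, T.Up (an c) s ∧ s ≠ T.root ∧ Lab G S θ N (T.Rg an s x0) ⊆ Y ∧
        y ∈ Lab G S θ N (T.Rg an (T.par s) x0)) (k' := R.card) (L' := 1) ?_ ?_ (fun y => ?_)
    (by omega) le_rfl
  · rintro N c ⟨hc, hY⟩
    obtain ⟨-, h1, -⟩ := hp N c hc
    rcases h.climb (fun z => Lab G S θ N (T.Rg an z x0) ⊆ Y) _ (ha c h1).1 hY.ge with
      h2 | ⟨s, a, b, d, e⟩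
    · exact Or.inl ⟨hc, hY ▸ Lab.sub, h2⟩
    · obtain ⟨y, h3, h4⟩ := Set.not_subset.1 e
      exact Or.inr ⟨y, Lab.sub h3, hc, hY, h4, s, a, b, d, h3⟩
  · refine Comp.done {s ∈ T.Rg an T.root x0 | ¬ HitS S θ Y s} R ?_ le_rfl le_rfl
    rintro N c ⟨hc, hYN, hY⟩
    obtain ⟨h0, h1, h2, h3, h4, h5, -⟩ := hp N c hc
    refine ⟨⟨⟨h1, h.up_root _ (ha c h1).1, h5⟩, fun hh => h2 (hh.mono hYN)⟩, h3,
      fun s hs => hsafe N s fun hh => hs.2 ?_⟩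
    exact lab_hit h hd (fun _ h => h.1) (rg_hU h hd ha h0 h4) hY s hs.1 hh
  · refine Comp.done {u | u ∈ T.Z ∧ T.Up x0 (an u) ∧ ¬ HitS S θ (insert y Y) u ∧
      y ∉ Lab G S θ (insert y Y) (T.Rg an (an u) x0)} R ?_ le_rfl le_rfl
    rintro N c ⟨hc, hY, hy, s, a, b, d, e⟩
    obtain ⟨h0, h1, h2, h3, h4, h5, -⟩ := hp N c hc
    have hYN : insert y (Y : Set V) ⊆ N := Set.insert_subset (Lab.sub e) (hY ▸ Lab.sub)
    refine ⟨⟨h1, h5, fun hh => h2 (hh.mono hYN), fun hh => hy ?_⟩, h3,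
      fun u hu => hsafe N u fun hh => hu.2.2.1 ?_⟩
    · rw [hY]
      exact lab_up hv ht h hd (fun _ h => h.1) (rg_hU h hd ha h0 h4)
        (hY.ge.trans (Set.subset_insert _ _)) hYN hh
    · have hus : T.Up (an u) s := by
        rcases hu.2.1.total (h5.trans a) with h6 | h6
        · exact h6
        · by_cases he : s = an u
          · exact he ▸ Tr.Up.refl T _
          · exact absurd (Lab.mono (Tr.rg_mono (h6.step he).2)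
              (Lab.down hYN e (Set.mem_insert _ _))) hu.2.2.2
      exact lab_hit h hd (fun _ h => h.1) (rg_hU h hd ha h0 h4)
        (d.trans (Set.subset_insert _ _)) u ⟨hu.1, hus, hu.2.1⟩ hh

lemma exists_region [Finite V] (h : T.Ok G) (ha : T.An an) {a : V} (hz : a ∈ T.Z)
    (haa : an a = a) (Q : Set V → Prop) (hQ : Q (T.sub a)) :
    ∃ D, T.Top D a ∧ Q D ∧ ∀ x ∈ D, an x ≠ a → an x ≠ T.root ∧ T.Up (T.par (an x)) a ∧
      ¬ Q (T.Rg an a (T.par (an x))) := by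
  obtain ⟨D, ⟨h1, h2, h3⟩, hm⟩ := Set.exists_min_image
    {D | T.Top D a ∧ (∀ s ∈ D, ∀ s' ∈ T.Z, an s' = an s → s' ∈ D) ∧ Q D} Set.ncard
    (Set.toFinite _) ⟨T.sub a, h.sub_top hz, fun s hs s' hs' he =>
      ⟨hs', (h.up_an ha s' hs').trans (he ▸ h.an_up ha haa s hs.1 hs.2)⟩, hQ⟩
  refine ⟨D, h1, h3, fun x hx hne => ?_⟩
  have hxZ := ha x (h1.1 hx)
  have hax : an x ∈ D := h2 x hx _ hxZ.1 hxZ.2.1
  obtain ⟨h4, h5⟩ := h1.2.2 _ hax hne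
  have h6 := h.top_up h1 _ h5
  refine ⟨h4, h6, fun hq => ?_⟩
  have hsub : T.Rg an a (T.par (an x)) ⊆ D := fun u hu =>
    h2 _ (h.top_mid h1 h5 hu.2.2 hu.2.1) u hu.1 (ha u hu.1).2.1.symm
  have hnot : x ∉ T.Rg an a (T.par (an x)) := fun hu => h.not_up_par hxZ.1 h4 hu.2.2
  have hlt : (T.Rg an a (T.par (an x))).ncard < D.ncard :=
    Set.ncard_lt_ncard ⟨hsub, fun hh => hnot (hh hx)⟩ (Set.toFinite _)
  refine absurd (hm (T.Rg an a (T.par (an x))) ⟨⟨fun _ h => h.1, ⟨hz, by rw [haa]; exact Tr.Up.refl T _, by rwa [haa]⟩,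
    fun s hs hsa => ?_⟩, fun s hs s' hs' he => ⟨hs', he ▸ hs.2.1, he ▸ hs.2.2⟩, hq⟩)
    (not_le.2 hlt)
  by_cases he : s = an s
  · have h7 : T.Up s a := he ▸ hs.2.1
    obtain ⟨h8, h9⟩ := h7.step hsa
    have h10 := (h s hs.1 h8).1
    refine ⟨h8, h10, h.an_up ha haa _ h10 h9, ?_⟩
    exact (hs.2.2.trans (he ▸ Tr.up_par h8)).trans (h.up_an ha _ h10)
  · obtain ⟨h7, h8⟩ := (ha s hs.1).2.2 he
    exact ⟨h7, (h s hs.1 h7).1, h8 ▸ hs.2.1, h8 ▸ hs.2.2⟩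

lemma big_step [Finite V] {t : ℕ} (hG : ¬ KM G t) (hv : S.Valid G) (ht : Thr S θ) (h : T.Ok G)
    (hd : T.Desc S θ) (ha : T.An an) (R : Finset V)
    (hsafe : ∀ N s, ¬ HitS S θ N s → Safe S0 N R s) {k kF L' : ℕ} {p : Set V → V → Prop}
    (hp : ∀ N c, p N c → c ∈ T.Z ∧ ¬ HitS S θ N c ∧ ∀ r ∈ R, r ∈ N)
    (hF : ∀ a, Comp S0 (fun N c => p N c ∧ an c = a) kF L') (hL : 1 ≤ L') (ht1 : 1 ≤ t)
    (hk1 : kF + t ≤ k) (hk2 : 2 * t + 1 + R.card ≤ k) :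
    Comp S0 (fun N c => p N c ∧ t ≤ (Lab G S θ N (T.sub (an c))).ncard) k
      (t * (2 * (t * 2 * L'))) := by
  refine Comp.sendN t (fun Λ N c => p N c ∧ ∃ D, T.Top D (an c) ∧ (Λ : Set V) ⊆ Lab G S θ N D ∧
    ∀ x ∈ D, an x ≠ an c → an x ≠ T.root ∧ T.Up (T.par (an x)) (an c) ∧
      (Lab G S θ N (T.Rg an (an c) (T.par (an x)))).ncard < t) (k' := k - t) ?_
    (fun Λ hΛ => ?_) (by omega)
  · rintro N c ⟨hc, hb⟩
    have hz := ha c (hp N c hc).1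
    obtain ⟨D, h1, h2, h3⟩ := exists_region h ha hz.1 hz.2.1
      (fun D => t ≤ (Lab G S θ N D).ncard) hb
    obtain ⟨Λ, h4, h5⟩ := Set.exists_subset_card_eq h2
    refine ⟨(Set.toFinite Λ).toFinset, by rwa [← Set.ncard_eq_toFinset_card],
      fun x hx => Lab.sub (h4 (by simpa using hx)), hc, D, h1, by simpa using h4,
      fun x hx hne => ?_⟩
    obtain ⟨a, b, d⟩ := h3 x hx hne
    exact ⟨a, b, not_le.1 d⟩
  rcases h.pierce t {D | (∃ a, T.Top D a) ∧ (∀ s ∈ D, ¬ HitS S θ Λ s) ∧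
    (Λ : Set V) ⊆ Lab G S θ Λ D} (fun D hD => hD.1) with ⟨Q, h1, h2, h3⟩ | ⟨Pts, h1, h2⟩
  · refine absurd (few Λ Q (fun y => {w | Best S θ Λ y w}) id hΛ.ge h1.ge
      (fun y _ => pc_cell hv ht y) (fun D hD => ?_) (fun y _ y' _ hne => ?_) h3
      (fun y _ D hD => ?_) (fun y hy D hD => ?_)) hG
    · obtain ⟨a, h4⟩ := (h2 D hD).1
      exact h.pc_top h4
    · exact Set.disjoint_left.2 fun w a b => hne (Best.uniq hv ht a b)
    · exact Set.disjoint_left.2 fun w a b => (h2 D hD).2.1 w b a.hit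
    · obtain ⟨q, a, -, w, b, d⟩ := (h2 D hD).2.2 hy
      exact ⟨w, d, q, a, b.symm⟩
  refine Comp.choose Pts (fun x N c => p N c ∧ x ∈ T.Z ∧ ¬ HitS S θ N x ∧ (an x ≠ an c →
    an x ≠ T.root ∧ T.Up (T.par (an x)) (an c) ∧
      (Lab G S θ N (T.Rg an (an c) (T.par (an x)))).ncard < t)) ?_ (fun x _ => ?_) h1.le le_rfl
  · rintro N c ⟨hc, D, a, b, d⟩
    obtain ⟨h3, h4, -⟩ := hp N c hc
    have hΛN : (Λ : Set V) ⊆ N := b.trans Lab.sub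
    obtain ⟨x, h5, h6⟩ := h2 {s ∈ D | ¬ HitS S θ N s} ⟨⟨an c, fun _ hs => a.1 hs.1,
      ⟨a.2.1, hd.unhit h h3 (h.up_an ha c h3) h4⟩, fun s hs hne => ⟨(a.2.2 s hs.1 hne).1,
        (a.2.2 s hs.1 hne).2, hd.unhit h (a.1 hs.1) (Tr.up_par (a.2.2 s hs.1 hne).1) hs.2⟩⟩,
      fun s hs hh => hs.2 (hh.mono hΛN), fun y hy => by
        obtain ⟨q, e, f, g⟩ := b hy
        exact Lab.down hΛN ⟨q, ⟨e, f⟩, f, g⟩ hy⟩
    exact ⟨x, h5, hc, a.1 h6.1, h6.2, d x h6.1⟩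
  refine Comp.cases (fun _ c => an c = an x) ((hF (an x)).mono (fun N c hc => ⟨hc.1.1, hc.2⟩)
    (by omega) (by nlinarith)) ?_ le_rfl
  refine (path_step hv ht h hd ha R hsafe (t := t) (k := k - t) (x0 := T.par (an x)) ?_
    (by omega)).mono (fun _ _ h => h) le_rfl (by nlinarith)
  rintro N c ⟨⟨hc, a, b, d⟩, hne⟩
  obtain ⟨h3, h4, h5⟩ := hp N c hc
  obtain ⟨e, f, g⟩ := d (Ne.symm hne)
  exact ⟨(h _ (ha x a).1 e).1, h3, h4, h5,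
    hd.unhit h a ((h.up_an ha x a).trans (Tr.up_par e)) b, f, g⟩

end Pool.Agent.MP_dcb13e_co.H59
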