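import Pool.Agent.MP_dcb13e_co.H59.Sys

/-! The compression game. -/

namespace Pool.Agent.MP_dcb13e_co.H59

variable {V : Type}

/-- the nearest site of `N` seen from `s` is matched by a site of `K` -/
def Safe (S0 : Sys V) (N K : Set V) (s : V) : Prop :=
  ∀ y' ∈ N, S0.φ y' s < S0.top → ∃ y ∈ K, S0.φ y s ≤ S0.φ y' s

/-- for every pair (sites `N`, centre `c`) with `p N c`, at most `k` sites and one of `L`
indices describe a safe set containing `c` -/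
def Comp (S0 : Sys V) (p : Set V → V → Prop) (k L : ℕ) : Prop :=
  ∃ dec : List V → ℕ → Set V, ∀ N c, p N c → ∃ l i, i < L ∧ l.length ≤ k ∧ (∀ y ∈ l, y ∈ N) ∧
    c ∈ dec l i ∧ ∀ s ∈ dec l i, Safe S0 N {y | y ∈ l} s

variable {S0 : Sys V} {p : Set V → V → Prop} {k L : ℕ}

lemma Safe.mono {N K K' : Set V} {s : V} (h : Safe S0 N K s) (hK : K ⊆ K') : Safe S0 N K' s :=
  fun y' hy hf => let ⟨y, h1, h2⟩ := h y' hy hf; ⟨y, hK h1, h2⟩

lemma Comp.mono {q : Set V → V → Prop} {k' L' : ℕ} (h : Comp S0 q k' L')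
    (hp : ∀ N c, p N c → q N c) (hk : k' ≤ k) (hL : L' ≤ L) : Comp S0 p k L := by
  obtain ⟨dec, hd⟩ := h
  refine ⟨dec, fun N c hc => ?_⟩
  obtain ⟨l, i, h1, h2, h3⟩ := hd N c (hp N c hc)
  exact ⟨l, i, by omega, by omega, h3⟩

lemma Comp.of_ex (h : (∃ N c, p N c) → Comp S0 p k L) : Comp S0 p k L := by
  by_cases hex : ∃ N c, p N c
  · exact h hex
  · exact ⟨fun _ _ => ∅, fun N c hc => absurd ⟨N, c, hc⟩ hex⟩

lemma Comp.done (A : Set V) (R : Finset V)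
    (h : ∀ N c, p N c → c ∈ A ∧ (∀ r ∈ R, r ∈ N) ∧ ∀ s ∈ A, Safe S0 N R s)
    (hk : R.card ≤ k) (hL : 1 ≤ L) : Comp S0 p k L := by
  refine ⟨fun _ _ => A, fun N c hc => ?_⟩
  obtain ⟨h1, h2, h3⟩ := h N c hc
  refine ⟨R.toList, 0, hL, by simpa using hk, fun y hy => h2 y (by simpa using hy), h1,
    fun s hs => (h3 s hs).mono fun y hy => by simpa using hy⟩

lemma Comp.choose {α : Type} (T : Finset α) (q : α → Set V → V → Prop) {n L' : ℕ}
    (h1 : ∀ N c, p N c → ∃ a ∈ T, q a N c) (h2 : ∀ a ∈ T, Comp S0 (q a) k L')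
    (hn : T.card ≤ n) (hL : n * L' ≤ L) : Comp S0 p k L := by
  classical
  choose! dec hd using h2
  by_cases hT : T.Nonempty
  swap
  · refine ⟨fun _ _ => ∅, fun N c hc => ?_⟩
    obtain ⟨a, ha, -⟩ := h1 N c hc
    exact absurd ⟨a, ha⟩ hT
  obtain ⟨a0, -⟩ := hT
  refine ⟨fun l i => dec (T.toList.getD (i / L') a0) l (i % L'), fun N c hc => ?_⟩
  obtain ⟨a, ha, hq⟩ := h1 N c hc
  obtain ⟨l, i, b1, b2, b3, b4⟩ := hd a ha N c hq
  obtain ⟨j, hj, hja⟩ := List.getElem_of_mem (Finset.mem_toList.2 ha)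
  have e1 : (j * L' + i) / L' = j := by
    rw [Nat.add_comm, Nat.add_mul_div_right _ _ (by omega), Nat.div_eq_of_lt b1, Nat.zero_add]
  have e2 : (j * L' + i) % L' = i := by
    rw [Nat.add_comm, Nat.add_mul_mod_self_right, Nat.mod_eq_of_lt b1]
  refine ⟨l, j * L' + i, ?_, b2, b3, ?_⟩
  · rw [Finset.length_toList] at hj
    have : (j + 1) * L' ≤ n * L' := Nat.mul_le_mul_right _ (by omega)
    nlinarith
  · simp only [e1, e2, List.getD_eq_getElem _ _ hj, hja]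
    exact b4

lemma Comp.cases (a : Set V → V → Prop) {L' : ℕ}
    (h1 : Comp S0 (fun N c => p N c ∧ a N c) k L')
    (h2 : Comp S0 (fun N c => p N c ∧ ¬ a N c) k L') (hL : 2 * L' ≤ L) : Comp S0 p k L := by
  refine Comp.choose (Finset.univ : Finset Bool)
    (fun b N c => if b then p N c ∧ a N c else p N c ∧ ¬ a N c) (fun N c hc => ?_) ?_
    (by simp) hL
  · by_cases h : a N c
    · exact ⟨true, by simp, by simp [hc, h]⟩
    · exact ⟨false, by simp, by simp [hc, h]⟩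
  · rintro (_ | _) -
    · simpa using h2
    · simpa using h1

lemma Comp.sendN (j : ℕ) (q : Finset V → Set V → V → Prop) {k' : ℕ}
    (h1 : ∀ N c, p N c → ∃ X : Finset V, X.card = j ∧ (∀ x ∈ X, x ∈ N) ∧ q X N c)
    (h2 : ∀ X : Finset V, X.card = j → Comp S0 (q X) k' L) (hk : k' + j ≤ k) : Comp S0 p k L := by
  classical
  choose! dec hd using h2
  refine ⟨fun l i => dec (l.take j).toFinset (l.drop j) i, fun N c hc => ?_⟩
  obtain ⟨X, hX, hN, hq⟩ := h1 N c hc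
  obtain ⟨l, i, b1, b2, b3, b4, b5⟩ := hd X hX N c hq
  have hl : X.toList.length = j := by simpa using hX
  have e1 : (X.toList ++ l).take j = X.toList := by rw [← hl]; simp
  have e2 : (X.toList ++ l).drop j = l := by rw [← hl]; simp
  refine ⟨X.toList ++ l, i, b1, by simp; omega, fun y hy => ?_, ?_⟩
  · rcases List.mem_append.1 hy with h | h
    · exact hN y (by simpa using h)
    · exact b3 y h
  · simp only [e1, e2, Finset.toList_toFinset]
    exact ⟨b4, fun s hs => (b5 s hs).mono fun y hy => List.mem_append_right _ hy⟩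

lemma Comp.send (q : V → Set V → V → Prop) {k' : ℕ}
    (h1 : ∀ N c, p N c → ∃ y ∈ N, q y N c) (h2 : ∀ y, Comp S0 (q y) k' L) (hk : k' + 1 ≤ k) :
    Comp S0 p k L := by
  refine Comp.sendN 1 (fun X N c => ∃ y, X = {y} ∧ q y N c) (fun N c hc => ?_) (fun X hX => ?_) hk
  · obtain ⟨y, hy, hq⟩ := h1 N c hc
    exact ⟨{y}, by simp, by simpa using hy, y, rfl, hq⟩
  · obtain ⟨y, rfl⟩ := Finset.card_eq_one.1 hX
    refine (h2 y).mono ?_ le_rfl le_rfl
    rintro N c ⟨y', h, hq⟩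
    rwa [Finset.singleton_injective h]

lemma Comp.sendSet (n : ℕ) (q : Finset V → Set V → V → Prop) {L' : ℕ}
    (h1 : ∀ N c, p N c → ∃ X : Finset V, X.card < n ∧ (∀ x ∈ X, x ∈ N) ∧ q X N c)
    (h2 : ∀ X : Finset V, X.card < n → Comp S0 (q X) (k - X.card) L') (hk : n ≤ k)
    (hL : n * L' ≤ L) : Comp S0 p k L := by
  refine Comp.choose (Finset.range n)
    (fun j N c => ∃ X : Finset V, X.card = j ∧ (∀ x ∈ X, x ∈ N) ∧ q X N c) (fun N c hc => ?_)
    (fun j hj => ?_) (by simp) hL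
  · obtain ⟨X, a, b⟩ := h1 N c hc
    exact ⟨X.card, by simpa using a, X, rfl, b⟩
  · rw [Finset.mem_range] at hj
    refine Comp.sendN j q (k' := k - j) (fun N c hc => hc) (fun X hX => ?_) (by omega)
    exact hX ▸ h2 X (by omega)

lemma Comp.sendOpt (q0 : Set V → V → Prop) (q : V → Set V → V → Prop) {k' L' : ℕ}
    (h1 : ∀ N c, p N c → q0 N c ∨ ∃ y ∈ N, q y N c) (h0 : Comp S0 q0 k' L')
    (h2 : ∀ y, Comp S0 (q y) k' L') (hk : k' + 1 ≤ k) (hL : 2 * L' ≤ L) : Comp S0 p k L := by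
  refine Comp.cases q0 (h0.mono (fun _ _ h => h.2) (by omega) le_rfl) ?_ hL
  exact Comp.send q (fun N c hc => (h1 N c hc.1).resolve_left hc.2) h2 hk

lemma Comp.chooseSub {α : Type} (T : Finset α) (t : ℕ) (q : Finset α → Set V → V → Prop)
    {n L' : ℕ} (h1 : ∀ N c, p N c → ∃ A, A ⊆ T ∧ A.card ≤ t ∧ q A N c)
    (h2 : ∀ A, A ⊆ T → A.card ≤ t → Comp S0 (q A) k L') (hn : T.card ≤ n) (hn1 : 1 ≤ n)
    (hL : (t + 1) * (n ^ t * L') ≤ L) : Comp S0 p k L := by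
  refine Comp.choose (Finset.range (t + 1)) (fun j N c => ∃ A, A ⊆ T ∧ A.card = j ∧ q A N c)
    (fun N c hc => ?_) (fun j hj => ?_) (by simp) hL
  · obtain ⟨A, a, b, d⟩ := h1 N c hc
    exact ⟨A.card, by simp; omega, A, a, rfl, d⟩
  · rw [Finset.mem_range] at hj
    refine Comp.choose (T.powersetCard j) q (fun N c hc => ?_) (fun A hA => ?_) ?_ le_rfl
    · obtain ⟨A, a, b, d⟩ := hc
      exact ⟨A, Finset.mem_powersetCard.2 ⟨a, b⟩, d⟩
    · rw [Finset.mem_powersetCard] at hA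
      exact h2 A hA.1 (by omega)
    · rw [Finset.card_powersetCard]
      exact (Nat.choose_le_pow _ _).trans
        ((Nat.pow_le_pow_left hn j).trans (Nat.pow_le_pow_right hn1 (by omega)))

/-- two sites cut out a safe interval of a linearly ordered family -/
lemma Comp.gap [Finite V] (f : V → ℕ) (Cl Cl' : Set V) (R : Finset V)
    (h : ∀ N c, p N c → c ∈ Cl ∧ (∀ r ∈ R, r ∈ N) ∧ (∀ y ∈ N, y ∈ Cl' → f y ≠ f c) ∧
      ∀ s ∈ Cl, (∀ y ∈ N, y ∈ Cl' → f y ≠ f s) → Safe S0 N R s)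
    (hk : R.card + 2 ≤ k) (hL : 4 ≤ L) : Comp S0 p k L := by
  have fin : ∀ lo hi : ℕ → Prop, Comp S0 (fun N c => p N c ∧ lo (f c) ∧ hi (f c) ∧
      (∀ y ∈ N, y ∈ Cl' → f y < f c → ¬ lo (f y)) ∧ ∀ y ∈ N, y ∈ Cl' → f c < f y → ¬ hi (f y))
      R.card 1 := by
    intro lo hi
    refine Comp.done {s ∈ Cl | lo (f s) ∧ hi (f s)} R ?_ le_rfl le_rfl
    rintro N c ⟨hc, a, b, d, e⟩
    obtain ⟨h1, h2, h3, h4⟩ := h N c hc
    refine ⟨⟨h1, a, b⟩, h2, fun s hs => h4 s hs.1 fun y hy hy' heq => ?_⟩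
    rcases lt_or_gt_of_ne (h3 y hy hy') with hl | hl
    · exact d y hy hy' hl (heq ▸ hs.2.1)
    · exact e y hy hy' hl (heq ▸ hs.2.2)
  have two : ∀ lo : ℕ → Prop, Comp S0 (fun N c => p N c ∧ lo (f c) ∧
      ∀ y ∈ N, y ∈ Cl' → f y < f c → ¬ lo (f y)) (R.card + 1) 2 := by
    intro lo
    refine Comp.sendOpt _ _ ?_ (fin lo fun _ => True) (fun y => fin lo fun n => n < f y)
      le_rfl le_rfl
    rintro N c ⟨hc, a, b⟩
    by_cases hex : {y | y ∈ N ∧ y ∈ Cl' ∧ f c < f y}.Nonempty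
    · obtain ⟨y, hy, hm⟩ := Set.exists_min_image _ f (Set.toFinite _) hex
      exact Or.inr ⟨y, hy.1, hc, a, hy.2.2, b, fun y' a1 a2 a3 => not_lt.2 (hm y' ⟨a1, a2, a3⟩)⟩
    · exact Or.inl ⟨hc, a, trivial, b, fun y' a1 a2 a3 _ => hex ⟨y', a1, a2, a3⟩⟩
  refine Comp.sendOpt _ _ ?_ (two fun _ => True) (fun y => two fun n => f y < n) (by omega) hL
  intro N c hc
  by_cases hex : {y | y ∈ N ∧ y ∈ Cl' ∧ f y < f c}.Nonempty
  · obtain ⟨y, hy, hm⟩ := Set.exists_max_image _ f (Set.toFinite _) hex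
    exact Or.inr ⟨y, hy.1, hc, hy.2.2, fun y' a1 a2 a3 => not_lt.2 (hm y' ⟨a1, a2, a3⟩)⟩
  · exact Or.inl ⟨hc, trivial, fun y' a1 a2 a3 _ => hex ⟨y', a1, a2, a3⟩⟩

end Pool.Agent.MP_dcb13e_co.H59
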