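import Mathlib

/-! Balls of a graph, sample compression schemes, minors. -/

namespace Pool.Agent.MP_dcb13e_co.H59

/-- the ball of centre `c` and integer radius `r`: the vertices joined to `c` by a walk with at
most `r` edges -/
def ball {V : Type} (G : SimpleGraph V) (c : V) (r : ℤ) : Set V :=
  {v | ∃ p : G.Walk c v, (p.length : ℤ) ≤ r}

/-- the hyperedges of the hypergraph of balls -/
def balls {V : Type} (G : SimpleGraph V) : Set (Set V) := {e | ∃ c r, e = ball G c r}

/-- `S` contains the positive part and avoids the negative part -/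
def Realizes {V : Type} (S : Set V) (X : Set V × Set V) : Prop := X.1 ⊆ S ∧ Disjoint S X.2

/-- the samples of the hypergraph with hyperedge set `E` -/
def Sample {V : Type} (E : Set (Set V)) : Type := {X : Set V × Set V // ∃ e ∈ E, Realizes e X}

/-- the hypergraph with hyperedge set `E` has a sample compression scheme of size at most `k` -/
def HasScheme {V : Type} (E : Set (Set V)) (k : ℕ) : Prop :=
  ∃ (κ : Sample E → Sample E × List Bool) (ρ : Sample E × List Bool → Set V) (k₁ k₂ : ℕ),
    k₁ + k₂ ≤ k ∧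
    ∀ X, (κ X).1.1.1 ⊆ X.1.1 ∧ (κ X).1.1.2 ⊆ X.1.2 ∧ Realizes (ρ (κ X)) X.1 ∧
      ((κ X).1.1.1 ∪ (κ X).1.1.2).ncard ≤ k₁ ∧ (κ X).2.length ≤ k₂

/-- `H` is a minor of `G`: pairwise disjoint connected branch sets of `G`, one for each vertex
of `H`, with an edge of `G` between the branch sets of any two adjacent vertices of `H` -/
def IsMinor {W V : Type} (H : SimpleGraph W) (G : SimpleGraph V) : Prop :=
  ∃ B : W → Set V, (∀ i, (G.induce (B i)).Connected) ∧
    (∀ i j, i ≠ j → Disjoint (B i) (B j)) ∧
    ∀ i j, H.Adj i j → ∃ u ∈ B i, ∃ v ∈ B j, G.Adj u v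

end Pool.Agent.MP_dcb13e_co.H59
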