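import Pool.Agent.MP_dcb13e_co.H59.Terminal

/-! From the game to a sample compression scheme. -/

namespace Pool.Agent.MP_dcb13e_co.H59

open Relation

variable {V : Type} {G : SimpleGraph V}

lemma exists_sys0 [Fintype V] (G : SimpleGraph V) : ∃ S0 : Sys V, S0.Valid G ∧
    (∀ y s, S0.φ y s < S0.top ↔ G.Reachable y s) ∧
    ∀ y y' s, G.Reachable y s → G.Reachable y' s → S0.φ y s ≤ S0.φ y' s →
      G.dist y s ≤ G.dist y' s := by
  classical
  let n := Fintype.card V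
  let idx : V → ℕ := fun y => Fintype.equivFin V y
  have hi : ∀ y, idx y < n := fun y => (Fintype.equivFin V y).2
  have hinj : ∀ y y', idx y = idx y' → y = y' := fun y y' h =>
    (Fintype.equivFin V).injective (Fin.ext h)
  let val : V → V → ℕ := fun y s => G.dist y s * n + idx y
  obtain ⟨B, hB⟩ := exists_bound (fun p : V × V => val p.1 p.2)
  have hB' : ∀ y s, val y s < B := fun y s => hB (y, s)
  let φ : V → V → ℕ := fun y s => if G.Reachable y s then val y s else B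
  have f1 : ∀ y s, G.Reachable y s → φ y s = val y s := fun y s h => if_pos h
  have f2 : ∀ y s, φ y s < B ↔ G.Reachable y s := by
    intro y s
    refine ⟨fun h => ?_, fun h => f1 y s h ▸ hB' y s⟩
    by_contra hn
    simp only [φ, if_neg hn] at h
    exact lt_irrefl _ h
  have f3 : ∀ y s, φ y s ≤ B := by
    intro y s
    by_cases h : G.Reachable y s
    · exact ((f2 y s).2 h).le
    · exact le_of_eq (if_neg h)
  have tri : ∀ y u s, G.Reachable y u → G.Adj u s → G.dist y s ≤ G.dist y u + 1 := by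
    intro y u s h1 h2
    obtain ⟨p, hp⟩ := h1.exists_walk_length_eq_dist
    simpa [hp] using SimpleGraph.dist_le (p.concat h2)
  have hp : ∀ y s, ∃ u, G.Reachable y s → s ≠ y →
      G.Adj u s ∧ G.Reachable y u ∧ G.dist y u + 1 ≤ G.dist y s := by
    intro y s
    by_cases h : G.Reachable y s ∧ s ≠ y
    · obtain ⟨p, hp⟩ := h.1.symm.exists_walk_length_eq_dist
      obtain ⟨w, hw, p', rfl⟩ := SimpleGraph.Walk.exists_eq_cons_of_ne h.2 p
      refine ⟨w, fun _ _ => ⟨hw.symm, p'.reachable.symm, ?_⟩⟩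
      have := SimpleGraph.dist_le p'
      rw [SimpleGraph.dist_comm (u := y) (v := w), SimpleGraph.dist_comm (u := y) (v := s), ← hp]
      simpa using this
    · exact ⟨s, fun h1 h2 => absurd ⟨h1, h2⟩ h⟩
  choose pred hp using hp
  refine ⟨⟨φ, B, pred, G.dist⟩, ⟨f3, fun y y' _ hne => ?_, fun y y' s s' h1 h2 => ?_,
    fun y s h1 h2 => ?_, fun y y' s h1 h2 h3 => ?_⟩, f2, fun y y' s h1 h2 h3 => ?_⟩
  · show φ y y < φ y' y
    rw [f1 y y (SimpleGraph.Reachable.refl y)]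
    by_cases h : G.Reachable y' y
    · rw [f1 y' y h]
      have h1 : 1 ≤ G.dist y' y := Nat.one_le_iff_ne_zero.2 fun h2 =>
        hne (h.dist_eq_zero_iff.1 h2).symm
      have := hi y
      simp only [val, SimpleGraph.dist_self]
      nlinarith
    · simp only [φ, if_neg h]
      exact hB' y y
  · change φ y s < B at h1
    change φ y s = φ y' s' at h2
    have h3 := (f2 y' s').1 (h2 ▸ h1)
    rw [f1 y s ((f2 y s).1 h1), f1 y' s' h3] at h2
    have h4 := congrArg (· % n) h2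
    simp only [val, Nat.mul_add_mod_self_right, Nat.mod_eq_of_lt (hi _)] at h4
    exact hinj _ _ h4
  · obtain ⟨a, b, c⟩ := hp y s ((f2 y s).1 h1) h2
    exact ⟨a, (f2 _ _).2 b, c⟩
  · change φ y (pred y' s) < φ y' (pred y' s) at h3
    show φ y s < φ y' s
    have h4 := (f2 y' s).1 h1
    obtain ⟨a, b, c⟩ := hp y' s h4 h2
    have h5 := (f2 y _).1 (lt_of_lt_of_le h3 (f3 _ _))
    rw [f1 _ _ h5, f1 _ _ b] at h3
    rw [f1 _ _ (h5.trans a.reachable), f1 _ _ h4]
    have h6 := Nat.mul_le_mul_right n (tri y _ s h5 a)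
    have h7 := Nat.mul_le_mul_right n c
    simp only [val] at h3 ⊢
    nlinarith
  · change φ y s ≤ φ y' s at h3
    rw [f1 _ _ h1, f1 _ _ h2] at h3
    by_contra hn
    have h6 := Nat.mul_le_mul_right n (Nat.succ_le_of_lt (not_le.1 hn))
    have := hi y'
    simp only [val, Nat.succ_eq_add_one] at h3 h6
    nlinarith

lemma exists_code [Finite V] (k L b : ℕ) (hb : (k + 2) ^ k * L ≤ 2 ^ b) :
    ∃ code : List V → ℕ → List Bool, (∀ l i, i < L → l.length ≤ k → (code l i).length ≤ b) ∧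
      ∀ l i l' i', i < L → l.length ≤ k → i' < L → l'.length ≤ k → {y | y ∈ l} = {y | y ∈ l'} →
        code l i = code l' i' → l = l' ∧ i = i' := by
  classical
  let ι : Set V → V → ℕ := fun Y y => (Set.toFinite Y).toFinset.toList.idxOf y
  have h1 : ∀ l : List V, l.length ≤ k → ∀ x ∈ l.map (fun y => ι {y | y ∈ l} y + 1),
      x < k + 2 ∧ x ≠ 0 := by
    intro l hl x hx
    obtain ⟨y, hy, rfl⟩ := List.mem_map.1 hx
    have h2 : ι {y | y ∈ l} y < (Set.toFinite {y | y ∈ l}).toFinset.toList.length :=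
      List.idxOf_lt_length_iff.2 (by simpa using hy)
    have h3 : (Set.toFinite {y | y ∈ l}).toFinset = l.toFinset := by ext; simp
    have h4 := l.toFinset_card_le
    rw [Finset.length_toList, h3] at h2
    omega
  let enc : List V → ℕ := fun l => Nat.ofDigits (k + 2) (l.map fun y => ι {y | y ∈ l} y + 1)
  refine ⟨fun l i => (enc l * L + i).bits, fun l i hi hl => ?_,
    fun l i l' i' hi hl hi' hl' hY he => ?_⟩
  · rw [Nat.size_eq_bits_len, Nat.size_le]
    have h2 : enc l < (k + 2) ^ (l.map fun y => ι {y | y ∈ l} y + 1).length :=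
      Nat.ofDigits_lt_base_pow_length (by omega) fun x hx => (h1 l hl x hx).1
    rw [List.length_map] at h2
    have h3 : (k + 2) ^ l.length ≤ (k + 2) ^ k := Nat.pow_le_pow_right (by omega) hl
    have h4 : (enc l + 1) * L ≤ (k + 2) ^ k * L := Nat.mul_le_mul_right _ (by omega)
    nlinarith
  · have h2 : enc l * L + i = enc l' * L + i' := by
      rw [← Nat.ofDigits_digits 2 (enc l * L + i), ← Nat.ofDigits_digits 2 (enc l' * L + i'),
        Nat.digits_two_eq_bits, Nat.digits_two_eq_bits]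
      exact congrArg (fun z : List Bool => Nat.ofDigits 2 (z.map fun b => bif b then 1 else 0)) he
    have h3 : i = i' := by
      have := congrArg (· % L) h2
      simpa [Nat.mod_eq_of_lt hi, Nat.mod_eq_of_lt hi'] using this
    have h4 : enc l = enc l' := Nat.eq_of_mul_eq_mul_right (by omega : 0 < L) (by omega)
    refine ⟨?_, h3⟩
    have h5 := congrArg (Nat.digits (k + 2)) h4
    simp only [enc] at h5
    rw [Nat.digits_ofDigits _ (by omega) _ (fun x hx => (h1 l hl x hx).1)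
      (fun h => (h1 l hl _ (List.getLast_mem h)).2), Nat.digits_ofDigits _ (by omega) _
      (fun x hx => (h1 l' hl' x hx).1) (fun h => (h1 l' hl' _ (List.getLast_mem h)).2),
      ← hY] at h5
    have h6 : ∀ m : List V, {y | y ∈ l} = {y | y ∈ m} → m.map some =
        (m.map fun y => ι {y | y ∈ l} y + 1).map
          fun n => (Set.toFinite {y | y ∈ l}).toFinset.toList[n - 1]? := by
      intro m hm
      rw [List.map_map, List.map_inj_left]
      intro y hy
      exact (List.getElem?_idxOf (by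
        rw [Finset.mem_toList, Set.Finite.mem_toFinset, hm]; exact hy)).symm
    refine List.map_injective_iff.2 (Option.some_injective V) ?_
    rw [h6 l rfl, h6 l' hY, h5]

lemma scheme_of_comp [Finite V] {S0 : Sys V} (h1 : ∀ y s, S0.φ y s < S0.top ↔ G.Reachable y s)
    (h2 : ∀ y y' s, G.Reachable y s → G.Reachable y' s → S0.φ y s ≤ S0.φ y' s →
      G.dist y s ≤ G.dist y' s) {k L b : ℕ} (h : Comp S0 (fun _ _ => True) k L)
    (hb : (k + 2) ^ k * L ≤ 2 ^ b) : HasScheme (balls G) (k + b) := by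
  obtain ⟨dec, hd⟩ := h
  obtain ⟨code, c1, c2⟩ := exists_code (V := V) k L b hb
  have key : ∀ X : Sample (balls G), ∃ (l : List V) (i : ℕ), i < L ∧ l.length ≤ k ∧
      {y | y ∈ l} ⊆ X.1.2 ∧ Realizes {v | ∃ s ∈ dec l i, G.Reachable v s ∧
        ∀ y ∈ l, G.Reachable y s → G.dist v s < G.dist y s} X.1 := by
    rintro ⟨X, _, ⟨c, r, rfl⟩, hX⟩
    obtain ⟨l, i, a1, a2, a3, a4, a5⟩ := hd X.2 c trivial
    refine ⟨l, i, a1, a2, a3, fun v hv => ?_, Set.disjoint_left.2 ?_⟩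
    · obtain ⟨p, hp⟩ := hX.1 hv
      refine ⟨c, a4, p.reachable.symm, fun y hy hr => ?_⟩
      obtain ⟨q, hq⟩ := hr.symm.exists_walk_length_eq_dist
      have h3 : ¬ (q.length : ℤ) ≤ r := fun h => Set.disjoint_left.1 hX.2 ⟨q, h⟩ (a3 y hy)
      have h4 := SimpleGraph.dist_le p
      rw [SimpleGraph.dist_comm (u := v), SimpleGraph.dist_comm (u := y)]
      omega
    · rintro v ⟨s, hs, hr, hv⟩ hN
      obtain ⟨y, hy, h3⟩ := a5 s hs v hN ((h1 v s).2 hr)
      have h4 := (h1 y s).1 (lt_of_le_of_lt h3 ((h1 v s).2 hr))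
      exact absurd (hv y hy h4) (not_lt.2 (h2 y v s h4 hr h3))
  choose l i a1 a2 a3 a4 using key
  refine ⟨fun X => (⟨(∅, {y | y ∈ l X}), ?_⟩, code (l X) (i X)),
    fun p => {v | ∃ l' i', i' < L ∧ l'.length ≤ k ∧ p.1.1.2 = {y | y ∈ l'} ∧ p.2 = code l' i' ∧
      ∃ s ∈ dec l' i', G.Reachable v s ∧ ∀ y ∈ l', G.Reachable y s → G.dist v s < G.dist y s},
    k, b, le_rfl, fun X => ⟨Set.empty_subset _, a3 X, ⟨fun v hv => ?_, Set.disjoint_left.2 ?_⟩, ?_,
      c1 _ _ (a1 X) (a2 X)⟩⟩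
  · obtain ⟨e, he, hX⟩ := X.2
    exact ⟨e, he, Set.empty_subset _, hX.2.mono_right (a3 X)⟩
  · exact ⟨l X, i X, a1 X, a2 X, rfl, rfl, (a4 X).1 hv⟩
  · rintro v ⟨l', i', b1, b2, b3, b4, b5⟩
    obtain ⟨rfl, rfl⟩ := c2 _ _ _ _ (a1 X) (a2 X) b1 b2 b3 b4
    exact Set.disjoint_left.1 (a4 X).2 b5
  · classical
    have : (∅ ∪ {y | y ∈ l X} : Set V) = (l X).toFinset := by ext; simp
    show (∅ ∪ {y | y ∈ l X} : Set V).ncard ≤ k
    rw [this, Set.ncard_coe_finset]
    exact (List.toFinset_card_le _).trans (a2 X)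

lemma count_le {t : ℕ} (ht : 2 ≤ t) :
    (16 * t + 20 + 2) ^ (16 * t + 20) * ((32 * t ^ 3) ^ (4 * t + 6) * finL t) ≤
      2 ^ (228 * t * (Nat.log 2 t + 1)) := by
  have p3 : 8 ≤ t ^ 3 := (Nat.pow_le_pow_left ht 3 :)
  have p4 : 16 ≤ t ^ 4 := (Nat.pow_le_pow_left ht 4 :)
  have p5 : 32 ≤ t ^ 5 := (Nat.pow_le_pow_left ht 5 :)
  have up : ∀ {a x y z : ℕ}, a ≤ t ^ x → x * y ≤ z → a ^ y ≤ t ^ z := fun {a x y z} h h' =>
    (Nat.pow_le_pow_left h y).trans (by
      rw [← pow_mul]; exact Nat.pow_le_pow_right (by omega) h')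
  have a1 : 16 * t + 20 + 2 ≤ t ^ 6 := by
    calc _ ≤ 32 * t := by omega
      _ ≤ t ^ 5 * t := Nat.mul_le_mul_right _ p5
      _ = _ := by ring
  have a2 : 32 * t ^ 3 ≤ t ^ 8 := by
    calc _ ≤ t ^ 5 * t ^ 3 := Nat.mul_le_mul_right _ p5
      _ = _ := by ring
  have a3 : 3 * (t ^ 2 + t) + 3 ≤ t ^ 5 := by
    calc _ ≤ 8 * t ^ 2 := by nlinarith
      _ ≤ t ^ 3 * t ^ 2 := Nat.mul_le_mul_right _ p3
      _ = _ := by ring
  have a4 : beta t + 1 ≤ t ^ 13 := by
    unfold beta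
    generalize 3 * (t ^ 2 + t) + 3 = a at a3
    calc _ ≤ 2 * t ^ 5 * (1 + 2 * t ^ 5) + 1 := by gcongr
      _ ≤ 8 * (t ^ 5 * t ^ 5) := by nlinarith
      _ ≤ t ^ 3 * (t ^ 5 * t ^ 5) := Nat.mul_le_mul_right _ p3
      _ = _ := by ring
  have a5 : 2 * ((t + 1) * (t + 4)) ≤ t ^ (3 * t) := by
    calc _ ≤ 16 * t ^ 2 := by nlinarith
      _ ≤ t ^ 4 * t ^ 2 := Nat.mul_le_mul_right _ p4
      _ = t ^ 6 := by ring
      _ ≤ _ := Nat.pow_le_pow_right (by omega) (by omega)
  have b1 := up (y := 16 * t + 20) (z := 156 * t) a1 (by omega)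
  have b2 := up (y := 4 * t + 6) (z := 56 * t) a2 (by omega)
  have b3 := up (y := t) (z := 13 * t) a4 le_rfl
  have b4 : finL t ≤ t ^ (3 * t) * t ^ (13 * t) := by
    calc _ = 2 * ((t + 1) * (t + 4)) * (beta t + 1) ^ t := by unfold finL; ring
      _ ≤ _ := Nat.mul_le_mul a5 b3
  calc _ ≤ t ^ (156 * t) * (t ^ (56 * t) * (t ^ (3 * t) * t ^ (13 * t))) :=
        Nat.mul_le_mul b1 (Nat.mul_le_mul b2 b4)
    _ = t ^ (228 * t) := by rw [← pow_add, ← pow_add, ← pow_add]; congr 1; ring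
    _ ≤ (2 ^ (Nat.log 2 t + 1)) ^ (228 * t) :=
        Nat.pow_le_pow_left (Nat.lt_pow_succ_log_self (by omega) t).le _
    _ = _ := by rw [← pow_mul]; congr 1; ring

theorem scheme [Fintype V] {t : ℕ} (ht : 2 ≤ t) (hG : ¬ KM G t) :
    HasScheme (balls G) (16 * t + 20 + 228 * t * (Nat.log 2 t + 1)) := by
  classical
  obtain ⟨S0, hv, h1, h2⟩ := exists_sys0 G
  refine scheme_of_comp h1 h2 ?_ (count_le ht)
  let σ : St V := ⟨∅, fun r => ⟨∅, r, id, fun _ => 0⟩, fun _ => none, ∅, S0⟩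
  have hD : DV G S0 σ (fun _ _ => False) := by
    refine ⟨⟨hv, thr_top hv, fun y s h _ => ⟨h, fun _ h => h⟩, ?_, ?_, ?_, ?_, ?_, ?_⟩,
      fun y u s a b _ => (h1 y s).2 (((h1 y u).1 a).trans b.reachable), fun _ _ h => h,
      fun _ _ h => h.elim⟩ <;> exact fun r hr => absurd hr (Finset.notMem_empty r)
  refine (play hG (by omega) (4 * t + 6) σ _ hD (by simp [σ]) (by simp [meas, σ]; omega)).mono
    (fun N c _ => ⟨?_, ⟨?_, ?_, ?_⟩, fun _ _ _ _ _ h => h.elim⟩) (by simp [σ]; omega) le_rfl <;>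
    exact fun r hr => absurd hr (Finset.notMem_empty r)

lemma size_le {t : ℕ} (ht : 2 ≤ t) :
    ((16 * t + 20 + 228 * t * (Nat.log 2 t + 1) : ℕ) : ℝ) ≤ 762 * t * Real.log t := by
  have h1 : (2 : ℝ) ≤ t := by exact_mod_cast ht
  have h2 : Real.log 2 ≤ Real.log t := Real.log_le_log (by norm_num) h1
  have h3 : (Nat.log 2 t : ℝ) * Real.log 2 ≤ Real.log t := by
    rw [← Real.log_pow]
    refine Real.log_le_log (by positivity) ?_
    exact_mod_cast Nat.pow_log_le_self 2 (by omega : t ≠ 0)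
  have h4 := Real.log_two_gt_d9
  have h5 : (0 : ℝ) ≤ Nat.log 2 t := Nat.cast_nonneg _
  have h6 : (Nat.log 2 t : ℝ) + 1 ≤ 3 * Real.log t := by nlinarith
  push_cast
  nlinarith

end Pool.Agent.MP_dcb13e_co.H59
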