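import Pool.Agent.MP_dcb13e_co.H59.State

/-! The growth step. -/

namespace Pool.Agent.MP_dcb13e_co.H59

open Relation

variable {V : Type} {G : SimpleGraph V}

lemma reroute [Finite V] {S : Sys V} (hv : S.Valid G) (ρ : V) (e : V → V → Prop)
    (sym : ∀ u v, e u v → e v u) (adj : ∀ u v, e u v → G.Adj u v ∧ S.φ ρ v < S.top) :
    ∃ (T : Tr V) (an : V → V), T.Z = {s | S.φ ρ s < S.top} ∧ T.root = ρ ∧ T.Ok G ∧ T.An an ∧
      (∀ s ∈ T.Z, s ≠ ρ → T.par s = S.pred ρ s ∨ e (T.par s) s) ∧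
      ∀ s s', an s = an s' ↔ ReflTransGen e s s' := by
  classical
  let w : V → ℕ := fun s => if s = ρ then 0 else S.rk ρ s + 1
  have hw : ∀ s, S.φ ρ s < S.top → s ≠ ρ → w (S.pred ρ s) < w s := by
    intro s h1 h2
    have := (hv.pred ρ s h1 h2).2.2
    simp only [w, if_neg h2]
    split_ifs <;> omega
  have ham : ∀ D : Set V, ∃ a, D.Nonempty → a ∈ D ∧ ∀ x ∈ D, w a ≤ w x := by
    intro D
    by_cases hD : D.Nonempty
    · obtain ⟨a, h1, h2⟩ := Set.exists_min_image D w (Set.toFinite _) hD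
      exact ⟨a, fun _ => ⟨h1, h2⟩⟩
    · exact ⟨ρ, fun h => absurd h hD⟩
  choose am ham using ham
  let an : V → V := fun s => am {x | ReflTransGen e s x}
  have an1 : ∀ s, ReflTransGen e s (an s) := fun s => (ham _ ⟨s, ReflTransGen.refl⟩).1
  have an2 : ∀ s, w (an s) ≤ w s := fun s => (ham _ ⟨s, ReflTransGen.refl⟩).2 s ReflTransGen.refl
  have an3 : ∀ s s', ReflTransGen e s s' → an s = an s' := by
    intro s s' h
    have : {x | ReflTransGen e s x} = {x | ReflTransGen e s' x} :=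
      Set.ext fun x => ⟨fun hx => (rtg_symm sym h).trans hx, fun hx => h.trans hx⟩
    simp only [an, this]
  choose par d hpar using exists_par e
  obtain ⟨B, hB⟩ := exists_bound (fun p : V × V => d p.1 p.2)
  have ins : ∀ s, s ≠ an s → e (par (an s) s) s ∧ an (par (an s) s) = an s ∧
      d (an s) (par (an s) s) < d (an s) s := by
    intro s hs
    obtain ⟨h1, -, h3⟩ := hpar (an s) s (rtg_symm sym (an1 s)) hs
    exact ⟨h1, an3 _ _ (ReflTransGen.single h1), h3⟩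
  refine ⟨⟨{s | S.φ ρ s < S.top}, ρ, fun s => if s = an s then S.pred ρ s else par (an s) s,
    fun s => w (an s) * B + d (an s) s⟩, an, rfl, rfl, fun s hs hne => ?_, fun s hs => ?_,
    fun s _ _ => ?_, fun s s' => ⟨fun h => (an1 s).trans (h ▸ rtg_symm sym (an1 s')), an3 s s'⟩⟩
  · by_cases h : s = an s
    · simp only [if_pos h]
      have h1 := hv.pred ρ s hs hne
      refine ⟨h1.2.1, h1.1, ?_⟩
      have h2 := hw s hs hne
      have h3 := an2 (S.pred ρ s)
      have h4 := hB (an (S.pred ρ s), S.pred ρ s)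
      have h5 : (w (an (S.pred ρ s)) + 1) * B ≤ w (an s) * B :=
        Nat.mul_le_mul_right _ (by rw [← h]; omega)
      simp only at h4
      nlinarith
    · simp only [if_neg h]
      obtain ⟨h1, h2, h3⟩ := ins s h
      refine ⟨(adj _ _ (sym _ _ h1)).2, (adj _ _ h1).1, ?_⟩
      rw [h2]
      omega
  · refine ⟨?_, (an3 _ _ (an1 s)).symm, fun h => ⟨?_, ?_⟩⟩
    · rcases ReflTransGen.cases_tail (an1 s) with h | ⟨b, -, h⟩
      · rw [h]; exact hs
      · exact (adj _ _ h).2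
    · intro hr
      change s = ρ at hr
      have h1 := an2 s
      by_cases h2 : an s = ρ
      · exact h (hr.trans h2.symm)
      · simp only [w, if_pos hr, if_neg h2] at h1
        omega
    · simp only [if_neg h]
      exact (ins s h).2.1
  · by_cases h : s = an s
    · exact Or.inl (if_pos h)
    · simp only [if_neg h]
      exact Or.inr (ins s h).1

open Classical in
/-- the potential of a state -/
noncomputable def meas (t : ℕ) (σ : St V) : ℕ :=
  4 * (t + 1 - σ.R.card) + 2 * (σ.R.filter fun r => σ.d r = none).card +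
    if σ.P.Nonempty then 0 else 1

variable {S0 : Sys V} {σ : St V} {e : V → V → Prop}

lemma IV.eq {N : Set V} {c : V} (h : IV G σ e N c) {y : V} (hy : y ∈ N) {u : V}
    (hu : ReflTransGen e c u) : σ.S.φ y u = σ.S.φ y c := by
  induction hu with
  | refl => rfl
  | tail h1 h2 ih => rw [← ih, (h.const y hy _ _ h1 h2).1]

theorem growth_step [Fintype V] [DecidableEq V] {t B L' : ℕ} (hG : ¬ KM G t) (ht : 1 ≤ t)
    (hD : DV G S0 σ e) (hR : σ.R.card ≤ t) (hB : 3 * t + 2 ≤ B) (hL : 1 ≤ L')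
    (hI : ∀ (σ' : St V) e', DV G S0 σ' e' → σ'.R.card ≤ t → meas t σ' < meas t σ →
      Comp S0 (IV G σ' e') (B + (t - σ'.P.card)) L') :
    Comp S0 (fun N c => IV G σ e N c ∧ HitS σ.S (fun _ => σ.S.top) N c)
      (B + (t - σ.P.card) + 3) (8 * t ^ 2 * L') := by
  classical
  have hc := hD.core
  have hv := hc.val
  refine Comp.send (fun ρ N c => IV G σ e N c ∧ Best σ.S (fun _ => σ.S.top) N ρ c)
    (k' := B + (t - σ.P.card) + 2) ?_ (fun ρ => Comp.of_ex ?_) le_rfl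
  · rintro N c ⟨h1, h2⟩
    obtain ⟨y, hy⟩ := h2.best
    exact ⟨y, hy.1, h1, hy⟩
  rintro ⟨N0, c0, -, hb0⟩
  have hρ : ρ ∉ σ.R := fun h => hc.dead ρ h c0 hb0.2.1
  let e' : V → V → Prop := fun u s => e u s ∧ σ.S.φ ρ u < σ.S.top ∧ σ.S.φ ρ s < σ.S.top ∧
    ∀ y, σ.S.φ y u < σ.S.φ ρ u ↔ σ.S.φ y s < σ.S.φ ρ s
  obtain ⟨Tρ, an, tZ, tr, tok, tan, tpar, tcl⟩ := reroute hv ρ e'
    (fun u v h => ⟨hD.sym _ _ h.1, h.2.2.1, h.2.1, fun y => (h.2.2.2 y).symm⟩)
    (fun u v h => ⟨(hD.adj _ _ h.1).1, h.2.2.1⟩)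
  let dm : V → Option V := fun r => if r = ρ ∨ σ.d r = some ρ then none else σ.d r
  have dm1 : ∀ r y, dm r = some y → r ≠ ρ ∧ σ.d r = some y ∧ y ≠ ρ := by
    intro r y h
    simp only [dm] at h
    split_ifs at h with h1
    rw [not_or] at h1
    exact ⟨h1.1, h, fun h2 => h1.2 (h2 ▸ h)⟩
  let Zp : V → Set V := fun r => {z | z ∈ (σ.T r).Z ∧ ¬ σ.S.φ ρ z < σ.S.top ∧
    ∀ y, dm r = some y → ∃ q ∈ (σ.T r).sub z, ¬ σ.S.φ ρ q < σ.S.top ∧
      ∃ w, G.Adj q w ∧ σ.S.φ y w < σ.S.φ ρ w}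
  let Tm : V → Tr V := fun r =>
    if r = ρ then Tρ else ⟨Zp r, (σ.T r).root, (σ.T r).par, (σ.T r).rk⟩
  have T1 : Tm ρ = Tρ := if_pos rfl
  have T2 : ∀ r ∈ σ.R, Tm r = ⟨Zp r, (σ.T r).root, (σ.T r).par, (σ.T r).rk⟩ :=
    fun r hr => if_neg (by rintro rfl; exact hρ hr)
  have qp : ∀ r y, dm r = some y → ∀ q ∈ (σ.T r).Z, ¬ σ.S.φ ρ q < σ.S.top → ∀ w, G.Adj q w →
      σ.S.φ y w < σ.S.φ ρ w → q ∈ Zp r := by
    intro r y h q a b w c d
    refine ⟨a, b, fun y' h' => ⟨q, ⟨a, Tr.Up.refl _ q⟩, b, w, c, ?_⟩⟩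
    rwa [← Option.some.inj (h.symm.trans h')]
  have lt_top : ∀ y s, σ.S.φ y s < σ.S.φ ρ s → σ.S.φ y s < σ.S.top :=
    fun y s h => lt_of_lt_of_le h (hv.le_top _ _)
  let σm : St V := ⟨insert ρ σ.R, Tm, dm, σ.P.erase ρ, σ.S⟩
  have hcm : Core G S0 σm (σ.S.φ ρ) := by
    refine ⟨hv, thr_site hv ρ, fun y s h1 h2 => ?_, fun r hr s h => ?_, fun r hr => ?_,
      fun r hr r' hr' hne => ?_, fun r hr => ?_, fun r hr y h z hz => ?_,
      fun r hr r' hr' y h h' => ?_⟩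
    · have h3 := (hc.link y s h1 fun r hr => h2 r (Finset.mem_insert_of_mem hr)).2
      exact ⟨h3 ρ (h2 ρ (Finset.mem_insert_self _ _)), h3⟩
    · rcases Finset.mem_insert.1 hr with rfl | hr
      · exact lt_irrefl _ h
      · exact hc.dead r hr s (lt_top _ _ h)
    · show (Tm r).Ok G
      rcases Finset.mem_insert.1 hr with rfl | hr
      · rwa [T1]
      · rw [T2 r hr]
        intro s hs hne
        have h1 := hc.ok r hr s hs.1 hne
        refine ⟨⟨h1.1, fun h => hs.2.1 (hc.desc r hr ρ s hs.1 hne h), fun y hy => ?_⟩, h1.2⟩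
        obtain ⟨q, a, b⟩ := hs.2.2 y hy
        exact ⟨q, Tr.sub_mono (Tr.up_par (T := σ.T r) hne) a, b⟩
    · show Disjoint (Tm r).Z (Tm r').Z
      rcases Finset.mem_insert.1 hr with h | h <;> rcases Finset.mem_insert.1 hr' with h' | h'
      · exact absurd (h.trans h'.symm) hne
      · rw [h, T1, T2 r' h', tZ]
        exact Set.disjoint_left.2 fun s a b => b.2.1 a
      · rw [h', T1, T2 r h, tZ]
        exact Set.disjoint_left.2 fun s a b => a.2.1 b
      · rw [T2 r h, T2 r' h']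
        exact (hc.disj r h r' h' hne).mono (fun _ h => h.1) (fun _ h => h.1)
    · show (Tm r).Desc σ.S (σ.S.φ ρ)
      rcases Finset.mem_insert.1 hr with rfl | hr
      · rw [T1]
        intro y s hs hne h
        rw [tr] at hne
        rcases tpar s hs hne with h1 | h1
        · rw [h1] at h
          rw [tZ] at hs
          exact hv.mono y r s hs hne h
        · exact (h1.2.2.2 y).1 h
      · rw [T2 r hr]
        intro y s hs hne h
        exact lt_of_lt_of_le (hc.desc r hr y s hs.1 hne (lt_top _ _ h)) (not_lt.1 hs.2.1)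
    · have hr' : r ∈ σ.R := (Finset.mem_insert.1 hr).resolve_left (dm1 r y h).1
      change z ∈ (Tm r).Z at hz
      show ∃ q ∈ (Tm r).sub z, ∃ w, G.Adj q w ∧ σ.S.φ y w < σ.S.φ ρ w
      rw [T2 r hr'] at hz ⊢
      obtain ⟨q, a, b, w, c, d⟩ := hz.2.2 y h
      exact ⟨q, ⟨qp r y h q a.1 b w c d, a.2⟩, w, c, d⟩
    · exact hc.dinj r ((Finset.mem_insert.1 hr).resolve_left (dm1 r y h).1) r'
        ((Finset.mem_insert.1 hr').resolve_left (dm1 r' y h').1) y (dm1 r y h).2.1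
        (dm1 r' y h').2.1
  have hcard : σm.R.card = σ.R.card + 1 := Finset.card_insert_of_notMem hρ
  have hmv : ∀ N c, IV G σ e N c ∧ Best σ.S (fun _ => σ.S.top) N ρ c →
      MV G σm (σ.S.φ ρ) ρ an False N c := by
    rintro N c ⟨hi, hb⟩
    have blob : ∀ u, ReflTransGen e c u → u ∈ (Tm ρ).Z ∧ an u = an c ∧
        ¬ HitS σ.S (σ.S.φ ρ) N u := by
      intro u hu
      refine ⟨?_, ((tcl c u).2 ?_).symm, ?_⟩
      · rw [T1, tZ]
        show σ.S.φ ρ u < σ.S.top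
        rw [hi.eq hb.1 hu]; exact hb.2.1
      · induction hu with
        | refl => exact ReflTransGen.refl
        | tail h1 h2 ih =>
          refine ih.tail ⟨h2, ?_, ?_, fun y => ⟨(hi.const ρ hb.1 _ _ h1 h2).2 y,
            (hi.const ρ hb.1 _ _ (h1.tail h2) (hD.sym _ _ h2)).2 y⟩⟩
          · rw [hi.eq hb.1 h1]; exact hb.2.1
          · rw [hi.eq hb.1 (h1.tail h2)]; exact hb.2.1
      · rintro ⟨y, h1, h2⟩
        rw [hi.eq hb.1 hu, hi.eq h1 hu] at h2
        exact absurd h2 (not_lt.2 (hb.2.2 y h1))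
    have unh : ∀ q, ¬ HitS σ.S (fun _ => σ.S.top) N q → ¬ HitS σ.S (σ.S.φ ρ) N q :=
      fun q h ⟨y, a, b⟩ => h ⟨y, a, lt_top _ _ b⟩
    have bst : ∀ y w, y ≠ ρ → Best σ.S (fun _ => σ.S.top) N y w → Best σ.S (σ.S.φ ρ) N y w :=
      fun y w h1 h2 => ⟨h2.1, h2.lt hv hc.thr hb.1 h1, h2.2.2⟩
    refine ⟨(blob c ReflTransGen.refl).1, (blob c ReflTransGen.refl).2.2,
      ⟨fun r hr => ?_, fun r hr hne => ?_, fun y hy => ?_⟩, False.elim⟩
    · rcases Finset.mem_insert.1 hr with rfl | hr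
      · exact hb.1
      · exact hi.core.RN r hr
    · have hr' : r ∈ σ.R := (Finset.mem_insert.1 hr).resolve_left hne
      obtain ⟨v, h1, ⟨u, h2, h3⟩, h4, h5⟩ := hi.core.att r hr' (by simp)
      show ∃ v ∈ (Tm r).Z, (∃ u ∈ {u | u ∈ (Tm ρ).Z ∧ an u = an c ∧ ¬ HitS σ.S (σ.S.φ ρ) N u},
        G.Adj u v) ∧ ¬ HitS σ.S (σ.S.φ ρ) N v ∧
          ∀ y, dm r = some y → y ∈ Lab G σ.S (σ.S.φ ρ) N ((Tm r).sub v)
      rw [T2 r hr']
      refine ⟨v, ⟨h1, fun h => h4 ⟨ρ, hb.1, h⟩, fun y hy => ?_⟩, ⟨u, blob u h2, h3⟩, unh v h4,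
        fun y hy => ?_⟩
      · obtain ⟨q, a, b, w, c, d⟩ := h5 y (dm1 r y hy).2.1
        exact ⟨q, a, fun h => b ⟨ρ, hb.1, h⟩, w, c, (bst y w (dm1 r y hy).2.2 d).2.1⟩
      · obtain ⟨q, a, b, w, c, d⟩ := h5 y (dm1 r y hy).2.1
        have h6 := bst y w (dm1 r y hy).2.2 d
        exact ⟨q, ⟨qp r y hy q a.1 (fun h => b ⟨ρ, hb.1, h⟩) w c h6.2.1, a.2⟩, unh q b, w, c, h6⟩
    · obtain ⟨h1, h2⟩ := Finset.mem_erase.1 hy
      obtain ⟨u, a, w, b, d⟩ := hi.core.pend y h2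
      exact ⟨u, blob u a, w, b, bst y w h1 d⟩
  have hPc : σ.P.card ≤ σm.P.card + 1 := by
    have := Finset.pred_card_le_card_erase (s := σ.P) (a := ρ)
    show _ ≤ (σ.P.erase ρ).card + 1
    omega
  refine (tree_step (B := B) (L' := L') (kF := t + 1) hG ht hcm (Finset.mem_insert_self _ _)
    (if_pos (Or.inl rfl)) (by show (Tm ρ).An an; rwa [T1]) (by omega) hmv (fun a => ?_) hB
    (by omega) hL fun h1 σ' e' y a b d _ => hI σ' e' a (b ▸ h1) ?_).mono (fun _ _ h => h)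
    (by omega) le_rfl
  · refine Comp.done {s | an s = a} σm.R ?_ (by omega) hL
    rintro N c ⟨h1, h2⟩
    have hm := hmv N c h1
    refine ⟨h2, hm.core.RN, fun s hs => hcm.safe N s ?_⟩
    have h3 : ReflTransGen e' c s := (tcl c s).1 (h2.trans hs.symm)
    clear hs
    induction h3 with
    | refl => exact hm.unhit
    | tail _ h5 ih => exact fun ⟨y, a, b⟩ => ih ⟨y, a, (h5.2.2.2 y).2 b⟩
  · have h2 : (σ'.R.filter fun r => σ'.d r = none) ⊆
        (σ.R.filter fun r => σ.d r = none) ∪ σ.R.filter fun r => σ.d r = some ρ := by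
      intro r hr
      rw [Finset.mem_filter, b, d] at hr
      have h3 : r ≠ ρ := by
        rintro rfl
        simp at hr
      rw [Function.update_of_ne h3] at hr
      have h4 := (Finset.mem_insert.1 hr.1).resolve_left h3
      have h5 : dm r = none := hr.2
      simp only [Finset.mem_union, Finset.mem_filter, h4, true_and]
      by_contra hn
      rw [not_or] at hn
      simp only [dm, h3, hn.2, or_self, if_false] at h5
      exact hn.1 h5
    have h3 : (σ.R.filter fun r => σ.d r = some ρ).card ≤ 1 := Finset.card_le_one.2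
      fun r hr r' hr' => hc.dinj r (Finset.mem_filter.1 hr).1 r' (Finset.mem_filter.1 hr').1 ρ
        (Finset.mem_filter.1 hr).2 (Finset.mem_filter.1 hr').2
    have h4 := (Finset.card_le_card h2).trans (Finset.card_union_le _ _)
    have h5 : σ'.R.card = σ.R.card + 1 := b ▸ hcard
    unfold meas
    split_ifs <;> (convert_to _ < _ ; omega)

end Pool.Agent.MP_dcb13e_co.H59
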