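import Pool.Agent.MP_dcb13e_co.H59.Basic

/-! Statements of the two extremal lemmas. -/

namespace Pool.Agent.MP_dcb13e_co.H59

open Classical in
/-- every minor of a graph with no clique minor of order `t` has average degree `O(t^2)` -/
def SDens : Prop :=
  ∀ {V ι : Type} (G : SimpleGraph V) (t : ℕ), ¬ KM G t →
    ∀ (S : Finset ι) (B : ι → Set V), (∀ i ∈ S, Pc G (B i)) →
      (∀ i ∈ S, ∀ j ∈ S, i ≠ j → Disjoint (B i) (B j)) →
      ∑ i ∈ S, (S.filter (fun j => j ≠ i ∧ AdjS G (B i) (B j))).card ≤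
        2 * (3 * (t ^ 2 + t) + 3) * S.card

/-- the load bound of the elimination lemma -/
def beta (t : ℕ) : ℕ := 2 * (3 * (t ^ 2 + t) + 3) * (1 + 2 * (3 * (t ^ 2 + t) + 3))

/-- hubs `X`, disjoint connected pieces `C m` off `X`, attached to `A m ⊆ X`: every piece gets
a hub `ζ m ∈ A m` such that it is one of few exceptional pieces of that hub, or its attachments
lie in a small set depending only on the hub -/
def SElim : Prop :=
  ∀ {V M : Type} [DecidableEq V] (G : SimpleGraph V) (t : ℕ), ¬ KM G t →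
    ∀ (X : Finset V) (Y : Finset M) (C : M → Set V) (A : M → Finset V),
      (∀ m ∈ Y, Pc G (C m)) → (∀ m ∈ Y, ∀ m' ∈ Y, m ≠ m' → Disjoint (C m) (C m')) →
      (∀ m ∈ Y, ∀ x ∈ X, x ∉ C m) →
      (∀ m ∈ Y, A m ⊆ X ∧ (A m).Nonempty ∧ ∀ x ∈ A m, ∃ u ∈ C m, G.Adj x u) →
      ∃ (ζ : M → V) (S : V → Finset V) (E : V → Finset M),
        (∀ m ∈ Y, ζ m ∈ A m ∧ (m ∈ E (ζ m) ∨ A m ⊆ insert (ζ m) (S (ζ m)))) ∧
        ∀ z, (S z).card ≤ beta t ∧ (E z).card ≤ beta t

end Pool.Agent.MP_dcb13e_co.H59
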