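import Pool.Agent.MP_dcb13e_co.H59.Big

/-! States of the game and the tree step. -/

namespace Pool.Agent.MP_dcb13e_co.H59

open Relation

/-- removed sites with their trees and labels, pending sites, current system -/
structure St (V : Type) where
  R : Finset V
  T : V → Tr V
  d : V → Option V
  P : Finset V
  S : Sys V

variable {V : Type}

/-- the vertices in no tree -/
def St.Free (σ : St V) : Set V := {s | ∀ r ∈ σ.R, s ∉ (σ.T r).Z}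

/-- what the decoder knows to hold -/
structure Core (G : SimpleGraph V) (S0 : Sys V) (σ : St V) (θ : V → ℕ) : Prop where
  val : σ.S.Valid G
  thr : Thr σ.S θ
  link : ∀ y s, S0.φ y s < S0.top → (∀ r ∈ σ.R, S0.φ y s < S0.φ r s) →
    σ.S.φ y s < θ s ∧ ∀ y', S0.φ y s < S0.φ y' s → σ.S.φ y s < σ.S.φ y' s
  dead : ∀ r ∈ σ.R, ∀ s, ¬ σ.S.φ r s < θ s
  ok : ∀ r ∈ σ.R, (σ.T r).Ok G
  disj : ∀ r ∈ σ.R, ∀ r' ∈ σ.R, r ≠ r' → Disjoint (σ.T r).Z (σ.T r').Z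
  desc : ∀ r ∈ σ.R, (σ.T r).Desc σ.S θ
  ns : ∀ r ∈ σ.R, ∀ y, σ.d r = some y → ∀ z ∈ (σ.T r).Z,
    ∃ q ∈ (σ.T r).sub z, ∃ w, G.Adj q w ∧ σ.S.φ y w < θ w
  dinj : ∀ r ∈ σ.R, ∀ r' ∈ σ.R, ∀ y, σ.d r = some y → σ.d r' = some y → r = r'

/-- what ties the true sites to the state; `Nb` is the blob of the target -/
structure TCore (G : SimpleGraph V) (σ : St V) (θ : V → ℕ) (Nb ex N : Set V) : Prop where
  RN : ∀ r ∈ σ.R, r ∈ N
  att : ∀ r ∈ σ.R, r ∉ ex → ∃ v ∈ (σ.T r).Z, (∃ u ∈ Nb, G.Adj u v) ∧ ¬ HitS σ.S θ N v ∧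
    ∀ y, σ.d r = some y → y ∈ Lab G σ.S θ N ((σ.T r).sub v)
  pend : ∀ y ∈ σ.P, ∃ u ∈ Nb, ∃ w, G.Adj u w ∧ Best σ.S θ N y w

/-- decoder side of a state -/
structure DV (G : SimpleGraph V) (S0 : Sys V) (σ : St V) (e : V → V → Prop) : Prop where
  core : Core G S0 σ (fun _ => σ.S.top)
  spread : ∀ y u s, σ.S.φ y u < σ.S.top → G.Adj u s → s ∈ σ.Free → σ.S.φ y s < σ.S.top
  sym : ∀ u v, e u v → e v u
  adj : ∀ u v, e u v → G.Adj u v ∧ v ∈ σ.Free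

/-- truth side of a state -/
structure IV (G : SimpleGraph V) (σ : St V) (e : V → V → Prop) (N : Set V) (c : V) : Prop where
  free : c ∈ σ.Free
  core : TCore G σ (fun _ => σ.S.top) {u | ReflTransGen e c u} ∅ N
  const : ∀ y' ∈ N, ∀ u s, ReflTransGen e c u → e u s →
    σ.S.φ y' u = σ.S.φ y' s ∧ ∀ y, σ.S.φ y u < σ.S.φ y' u → σ.S.φ y s < σ.S.φ y' s

/-- truth side in the middle of a round -/
structure MV (G : SimpleGraph V) (σ : St V) (θ : V → ℕ) (ρ : V) (an : V → V) (ne : Prop)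
    (N : Set V) (c : V) : Prop where
  mem : c ∈ (σ.T ρ).Z
  unhit : ¬ HitS σ.S θ N c
  core : TCore G σ θ {u | u ∈ (σ.T ρ).Z ∧ an u = an c ∧ ¬ HitS σ.S θ N u} {ρ} N
  ne : ne → (Lab G σ.S θ N ((σ.T ρ).sub (an c))).Nonempty

variable {G : SimpleGraph V} {S0 : Sys V} {σ : St V} {θ : V → ℕ} {ρ : V} {an : V → V}

lemma Core.safe (hc : Core G S0 σ θ) (N : Set V) (s : V) (h : ¬ HitS σ.S θ N s) :
    Safe S0 N σ.R s := by
  intro y hy hf
  by_contra hn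
  push Not at hn
  exact h ⟨y, hy, (hc.link y s hf fun r hr => hn r hr).1⟩

lemma few_step [Fintype V] [DecidableEq V] {t k L' : ℕ} (hG : ¬ KM G t) (hc : Core G S0 σ θ)
    (hρ : ρ ∈ σ.R) (ha : (σ.T ρ).An an) (hR : t + 1 ≤ σ.R.card) {ne : Prop}
    {p : Set V → V → Prop} (hp : ∀ N c, p N c → MV G σ θ ρ an ne N c)
    (hF : ∀ a, Comp S0 (fun N c => p N c ∧ an c = a) k L') : Comp S0 p k (t * L') := by
  classical
  refine Comp.choose (Finset.univ.filter fun a => a ∈ (σ.T ρ).Z ∧ an a = a ∧ ∀ r ∈ σ.R.erase ρ,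
    AdjS G (σ.T r).Z {s | s ∈ (σ.T ρ).Z ∧ an s = a}) _ (fun N c h => ?_) (fun a _ => hF a) ?_
    le_rfl
  · have hm := hp N c h
    refine ⟨an c, ?_, h, rfl⟩
    simp only [Finset.mem_filter, Finset.mem_univ, true_and]
    refine ⟨(ha c hm.mem).1, (ha c hm.mem).2.1, fun r hr => ?_⟩
    rw [Finset.mem_erase] at hr
    obtain ⟨v, h1, ⟨u, h2, h3⟩, -⟩ := hm.core.att r hr.2 hr.1
    exact ⟨v, h1, u, ⟨h2.1, h2.2.1⟩, h3.symm⟩
  · by_contra hn
    refine hG (few (σ.R.erase ρ) _ (fun r => (σ.T r).Z)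
      (fun a => {s | s ∈ (σ.T ρ).Z ∧ an s = a}) (by rw [Finset.card_erase_of_mem hρ]; omega)
      (not_le.1 hn).le (fun r hr => (hc.ok r (Finset.mem_of_mem_erase hr)).pc)
      (fun a h => ?_) (fun r hr r' hr' =>
        hc.disj r (Finset.mem_of_mem_erase hr) r' (Finset.mem_of_mem_erase hr'))
      (fun a _ a' _ hne => ?_) (fun r hr a _ => ?_) (fun r hr a h => ?_))
    · rw [Finset.mem_filter] at h
      exact (hc.ok ρ hρ).pc_top ((hc.ok ρ hρ).node_top ha h.2.1 h.2.2.1)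
    · exact Set.disjoint_left.2 fun s h1 h2 => hne (h1.2.symm.trans h2.2)
    · rw [Finset.mem_erase] at hr
      exact (hc.disj r hr.2 ρ hρ hr.1).mono_right fun s h => h.1
    · exact (Finset.mem_filter.1 h).2.2.2 r hr

/-- shrinking the current tree and regrowing gives a new state -/
lemma restart [Finite V] [DecidableEq V] (hc : Core G S0 σ θ) (hρ : ρ ∈ σ.R)
    (hd : σ.d ρ = none) (P' : Finset V) (Y : Set V) (y : V)
    (hy : ∀ r ∈ σ.R, σ.d r ≠ some y) :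
    ∃ (σ' : St V) (e : V → V → Prop), DV G S0 σ' e ∧ σ'.R = σ.R ∧
      σ'.d = Function.update σ.d ρ (some y) ∧ σ'.P = P' ∧
      ∀ (ne : Prop) N c, MV G σ θ ρ an ne N c → (σ.T ρ).An an → insert y Y ⊆ N → y ∉ Y →
        (P' : Set V) ⊆ Lab G σ.S θ N ((σ.T ρ).sub (an c)) →
        ∀ s, (σ.T ρ).Up (an c) s → s ≠ (σ.T ρ).root → Lab G σ.S θ N ((σ.T ρ).sub s) ⊆ Y →
          y ∈ Lab G σ.S θ N ((σ.T ρ).sub ((σ.T ρ).par s)) → IV G σ' e N c := by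
  set T := σ.T ρ with hT
  have h := hc.ok ρ hρ
  have hde := hc.desc ρ hρ
  rw [← hT] at h hde
  let Zn : Set V := {z | z ∈ T.Z ∧ ¬ HitS σ.S θ (insert y Y) z ∧
    y ∈ Lab G σ.S θ (insert y Y) (T.sub z)}
  let W : Set V := {z | z ∈ T.Z ∧ ¬ HitS σ.S θ (insert y Y) z ∧ z ∉ Zn}
  let e : V → V → Prop := fun u v => u ∈ W ∧ v ∈ W ∧
    ((u ≠ T.root ∧ T.par u = v) ∨ (v ≠ T.root ∧ T.par v = u))
  let T' : V → Tr V := Function.update σ.T ρ ⟨Zn, T.root, T.par, T.rk⟩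
  have T1 : T' ρ = ⟨Zn, T.root, T.par, T.rk⟩ := Function.update_self ..
  have T2 : ∀ r, r ≠ ρ → T' r = σ.T r := fun r hr => Function.update_of_ne hr ..
  have Tsub : ∀ r, (T' r).Z ⊆ (σ.T r).Z := by
    intro r
    by_cases hr : r = ρ
    · subst hr; rw [T1]; exact fun _ h => h.1
    · rw [T2 r hr]
  let F : Set V := {s | ∀ r ∈ σ.R, s ∉ (T' r).Z}
  have WF : W ⊆ F := by
    intro s hs r hr
    by_cases hrρ : r = ρ
    · subst hrρ; rw [T1]; exact hs.2.2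
    · rw [T2 r hrρ]
      exact fun h => Set.disjoint_left.1 (hc.disj r hr ρ hρ hrρ) h hs.1
  have esym : ∀ u v, e u v → e v u := fun u v h => ⟨h.2.1, h.1, h.2.2.symm⟩
  have eadj : ∀ u v, e u v → G.Adj u v ∧ v ∈ F := by
    rintro u v ⟨h1, h2, ⟨h3, rfl⟩ | ⟨h3, rfl⟩⟩
    · exact ⟨(h u h1.1 h3).2.1.symm, WF h2⟩
    · exact ⟨(h v h2.1 h3).2.1, WF h2⟩
  obtain ⟨S', v', r1, r2, r2', r3, r4⟩ := regrow hc.val hc.thr F e esym eadj
  have okn : ∀ r ∈ σ.R, (T' r).Ok G := by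
    intro r hr
    by_cases hrρ : r = ρ
    · subst hrρ
      rw [T1]
      intro s hs hne
      have h1 := h s hs.1 hne
      exact ⟨⟨h1.1, hde.unhit h hs.1 (Tr.up_par hne) hs.2.1,
        Lab.mono (Tr.sub_mono (Tr.up_par (T := T) hne)) hs.2.2⟩, h1.2⟩
    · rw [T2 r hrρ]; exact hc.ok r hr
  have nf : ∀ r ∈ σ.R, ∀ s ∈ (T' r).Z, s ∉ F := fun r hr s hs hF => hF r hr hs
  have qn : ∀ q ∈ T.Z, ¬ HitS σ.S θ (insert y Y) q → ∀ w, G.Adj q w →
      Best σ.S θ (insert y Y) y w → q ∈ Zn :=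
    fun q a b w c d => ⟨a, b, q, ⟨a, Tr.Up.refl T q⟩, b, w, c, d⟩
  have dn : ∀ r y', Function.update σ.d ρ (some y) r = some y' →
      (r = ρ ∧ y' = y) ∨ (r ≠ ρ ∧ σ.d r = some y') := by
    intro r y' h1
    by_cases hr : r = ρ
    · subst hr
      rw [Function.update_self] at h1
      exact Or.inl ⟨rfl, (Option.some.inj h1).symm⟩
    · rw [Function.update_of_ne hr] at h1
      exact Or.inr ⟨hr, h1⟩
  refine ⟨⟨σ.R, T', Function.update σ.d ρ (some y), P', S'⟩, e, ⟨⟨v', thr_top v', ?_, ?_, okn, ?_,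
    ?_, ?_, ?_⟩, r3, esym, eadj⟩, rfl, rfl, rfl, ?_⟩
  · intro x s h1 h2
    obtain ⟨h3, h4⟩ := hc.link x s h1 h2
    exact ⟨(r1 x s h3).1, fun x' h5 => (r1 x s h3).2 x' (h4 x' h5)⟩
  · intro r hr s h1
    obtain ⟨s0, h2⟩ := r2' r s h1
    exact hc.dead r hr s0 h2
  · exact fun r hr r' hr' hne => (hc.disj r hr r' hr' hne).mono (Tsub r) (Tsub r')
  · intro r hr x s hs hne h1
    have h2 := r2 x _ (nf r hr _ (okn r hr s hs hne).1) h1
    refine (r1 x s ?_).1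
    by_cases hrρ : r = ρ
    · subst hrρ
      change s ∈ (T' r).Z at hs
      change s ≠ (T' r).root at hne
      change σ.S.φ x ((T' r).par s) < θ ((T' r).par s) at h2
      rw [T1] at hs hne h2
      exact hde x s hs.1 hne h2
    · change s ∈ (T' r).Z at hs
      change s ≠ (T' r).root at hne
      change σ.S.φ x ((T' r).par s) < θ ((T' r).par s) at h2
      rw [T2 r hrρ] at hs hne h2
      exact hc.desc r hr x s hs hne h2
  · intro r hr y' h1 z hz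
    change z ∈ (T' r).Z at hz
    show ∃ q ∈ (T' r).sub z, ∃ w, G.Adj q w ∧ S'.φ y' w < S'.top
    rcases dn r y' h1 with ⟨rfl, rfl⟩ | ⟨h2, h3⟩
    · rw [T1] at hz ⊢
      obtain ⟨q, a, b, w, c, d⟩ := hz.2.2
      exact ⟨q, ⟨qn q a.1 b w c d, a.2⟩, w, c, (r1 _ w d.2.1).1⟩
    · rw [T2 r h2] at hz ⊢
      obtain ⟨q, a, w, b, c⟩ := hc.ns r hr y' h3 z hz
      exact ⟨q, a, w, b, (r1 _ w c).1⟩
  · intro r hr r' hr' y' h1 h2
    rcases dn r y' h1 with ⟨a, b⟩ | ⟨a, b⟩ <;> rcases dn r' y' h2 with ⟨a', b'⟩ | ⟨a', b'⟩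
    · exact a.trans a'.symm
    · exact absurd (b ▸ b') (hy r' hr')
    · exact absurd (b' ▸ b) (hy r hr)
    · exact hc.dinj r hr r' hr' y' b b'
  intro ne N c hm ha hYN hyY hP s hs hsr hL hyL
  have hcZ : c ∈ T.Z := hm.mem
  have hcs : T.Up c s := (h.up_an ha c hcZ).trans hs
  have hsZ := (h.up hcZ hcs).1
  have hsu := hde.unhit h hcZ hcs hm.unhit
  have hU := (h.sub_top hsZ).hU hsu
  have hL' := hL.trans (Set.subset_insert y Y)
  let A : Set V := {u | u ∈ T.sub s ∧ ¬ HitS σ.S θ N u}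
  have AW : A ⊆ W := fun u hu => ⟨hu.1.1, fun hh => hu.2 (hh.mono hYN), fun hh => hyY (hL
    (lab_up hc.val hc.thr h hde (fun _ h => h.1) hU hL' hYN
      (Lab.mono (Tr.sub_mono hu.1.2) hh.2.2)))⟩
  have hvZ : T.par s ∈ Zn := ⟨(h s hsZ hsr).1, fun hh => hde.unhit h hsZ (Tr.up_par hsr) hsu
    (hh.mono hYN), Lab.down hYN hyL (Set.mem_insert _ _)⟩
  have Aup : ∀ u ∈ A, u ≠ s → u ≠ T.root ∧ T.par u ∈ A := fun u hu hne =>
    ⟨(hu.1.2.step hne).1, ⟨(h u hu.1.1 (hu.1.2.step hne).1).1, (hu.1.2.step hne).2⟩,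
      hde.unhit h hu.1.1 (Tr.up_par (hu.1.2.step hne).1) hu.2⟩
  have As : ∀ u ∈ T.Z, u ∈ A → ReflTransGen e u s := by
    refine h.ind fun u _ ih hu => ?_
    by_cases hus : u = s
    · exact hus ▸ ReflTransGen.refl
    · obtain ⟨h1, h2⟩ := Aup u hu hus
      exact ReflTransGen.head ⟨AW hu, AW h2, Or.inl ⟨h1, rfl⟩⟩ (ih h1 h2)
  have Acl : ∀ u ∈ A, ∀ x, ReflTransGen e u x → x ∈ A := by
    intro u hu x hx
    induction hx with
    | refl => exact hu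
    | @tail a b _ h2 ih =>
      rcases h2 with ⟨h1, h2, ⟨h3, rfl⟩ | ⟨h3, rfl⟩⟩
      · by_cases has : a = s
        · exact absurd (has ▸ hvZ) h2.2.2
        · exact (Aup a ih has).2
      · have hb : b ∈ T.sub s := ⟨h2.1, (Tr.up_par h3).trans ih.1.2⟩
        exact ⟨hb, fun hh => h2.2.1 (lab_hit h hde (fun _ h => h.1) hU hL' b hb hh)⟩
  have hcA : c ∈ A := ⟨⟨hcZ, hcs⟩, hm.unhit⟩
  have Ac : ∀ u ∈ A, ReflTransGen e c u := fun u hu =>
    (As c hcZ hcA).trans (rtg_symm esym (As u hu.1.1 hu))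
  have nbA : ∀ u ∈ {u | u ∈ T.Z ∧ an u = an c ∧ ¬ HitS σ.S θ N u}, u ∈ A := fun u hu =>
    ⟨⟨hu.1, (h.up_an ha u hu.1).trans (hu.2.1 ▸ hs)⟩, hu.2.2⟩
  have unh : ∀ q, q ∉ F → ¬ HitS σ.S θ N q → ¬ HitS S' (fun _ => S'.top) N q :=
    fun q a b ⟨x, c, d⟩ => b ⟨x, c, r2 x q a d⟩
  have bst : ∀ x w, Best σ.S θ N x w → Best S' (fun _ => S'.top) N x w := by
    intro x w hb
    refine ⟨hb.1, (r1 x w hb.2.1).1, fun x' hx' => ?_⟩
    by_cases he : x = x'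
    · rw [he]
    · exact ((r1 x w hb.2.1).2 x' (hb.lt hc.val hc.thr hx' he)).le
  refine ⟨WF (AW hcA), ⟨hm.core.RN, fun r hr _ => ?_, fun x hx => ?_⟩, fun x hx u b hu hub => ?_⟩
  · show ∃ v ∈ (T' r).Z, (∃ u ∈ {u | ReflTransGen e c u}, G.Adj u v) ∧
      ¬ HitS S' (fun _ => S'.top) N v ∧ ∀ y', Function.update σ.d ρ (some y) r = some y' →
        y' ∈ Lab G S' (fun _ => S'.top) N ((T' r).sub v)
    by_cases hrρ : r = ρ
    · subst hrρ
      have nf' := nf r hr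
      rw [T1] at nf' ⊢
      refine ⟨T.par s, hvZ, ⟨s, Ac s ⟨⟨hsZ, Tr.Up.refl T s⟩, hsu⟩, (h s hsZ hsr).2.1.symm⟩,
        unh _ (nf' _ hvZ) (hde.unhit h hsZ (Tr.up_par hsr) hsu), fun y' h1 => ?_⟩
      rw [Function.update_self] at h1
      obtain rfl := Option.some.inj h1
      obtain ⟨q, a, b, w, c, d⟩ := hyL
      have hq := qn q a.1 (fun hh => b (hh.mono hYN)) w c (d.sub hYN (Set.mem_insert _ _))
      exact ⟨q, ⟨hq, a.2⟩, unh q (nf' q hq) b, w, c, bst _ w d⟩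
    · have nf' := nf r hr
      rw [T2 r hrρ] at nf' ⊢
      obtain ⟨v, h1, ⟨u, h2, h3⟩, h4, h5⟩ := hm.core.att r hr hrρ
      refine ⟨v, h1, ⟨u, Ac u (nbA u h2), h3⟩, unh v (nf' v h1) h4, fun y' h6 => ?_⟩
      rw [Function.update_of_ne hrρ] at h6
      obtain ⟨q, a, b, w, c, d⟩ := h5 y' h6
      exact ⟨q, a, unh q (nf' q a.1) b, w, c, bst _ w d⟩
  · obtain ⟨q, a, b, w, c, d⟩ := hP hx
    exact ⟨q, Ac q ⟨Tr.sub_mono hs a, b⟩, w, c, bst _ w d⟩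
  · exact r4 x u (fun z hz hh => (Acl c hcA z (hu.trans hz)).2 ⟨x, hx, hh⟩) b hub

lemma light_step [Finite V] [DecidableEq V] {t B L' : ℕ} (hc : Core G S0 σ θ) (hρ : ρ ∈ σ.R)
    (hd : σ.d ρ = none) (ha : (σ.T ρ).An an) {ne : Prop} {p : Set V → V → Prop}
    (hp : ∀ N c, p N c → MV G σ θ ρ an ne N c) (hB : t + σ.R.card ≤ B) (hL : 1 ≤ L')
    (hI : ∀ (σ' : St V) e y, DV G S0 σ' e → σ'.R = σ.R → σ'.d = Function.update σ.d ρ (some y) →
      (ne → σ'.P.Nonempty) → Comp S0 (IV G σ' e) (B + (t - σ'.P.card)) L') :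
    Comp S0 (fun N c => p N c ∧ ¬ t ≤ (Lab G σ.S θ N ((σ.T ρ).sub (an c))).ncard)
      (B + (t - σ.P.card) + 1) (t * (2 * L')) := by
  have h := hc.ok ρ hρ
  have hde := hc.desc ρ hρ
  refine Comp.sendSet t (fun X N c => p N c ∧ (σ.P ∪ X).card < t ∧ Disjoint σ.P X ∧
    ((σ.P ∪ X : Finset V) : Set V) = Lab G σ.S θ N ((σ.T ρ).sub (an c))) ?_ (fun X hX => ?_)
    (by omega) le_rfl
  · rintro N c ⟨hc', hn⟩
    have hm := hp N c hc'
    set Λ := (Set.toFinite (Lab G σ.S θ N ((σ.T ρ).sub (an c)))).toFinset with hΛ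
    have h1 : Λ.card < t := by rw [hΛ, ← Set.ncard_eq_toFinset_card]; omega
    have h2 : σ.P ⊆ Λ := by
      intro y hy
      obtain ⟨u, a, w, b, d⟩ := hm.core.pend y hy
      rw [hΛ, Set.Finite.mem_toFinset]
      exact ⟨u, ⟨a.1, a.2.1 ▸ h.up_an ha u a.1⟩, a.2.2, w, b, d⟩
    refine ⟨Λ \ σ.P, lt_of_le_of_lt (Finset.card_le_card Finset.sdiff_subset) h1,
      fun x hx => ?_, hc', ?_, Finset.disjoint_sdiff, ?_⟩
    · have := (Finset.mem_sdiff.1 hx).1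
      rw [hΛ, Set.Finite.mem_toFinset] at this
      exact Lab.sub this
    · rwa [Finset.union_sdiff_of_subset h2]
    · rw [Finset.union_sdiff_of_subset h2, hΛ, Set.Finite.coe_toFinset]
  refine Comp.of_ex ?_
  rintro ⟨N0, c0, hc0, hcard, hdis, hP0⟩
  rw [Finset.card_union_of_disjoint hdis] at hcard
  let Y : Set V := ((σ.P ∪ X : Finset V) : Set V) ∪ {y | ∃ r ∈ σ.R, σ.d r = some y}
  have hYN : ∀ N c, p N c → ((σ.P ∪ X : Finset V) : Set V) =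
      Lab G σ.S θ N ((σ.T ρ).sub (an c)) → Y ⊆ N := by
    rintro N c hc' hP y (hy | ⟨r, hr, hy⟩)
    · exact Lab.sub (hP ▸ hy)
    · obtain ⟨v, -, -, -, h1⟩ := (hp N c hc').core.att r hr (by
        rintro rfl
        rw [hd] at hy
        exact absurd hy (by simp))
      exact Lab.sub (h1 y hy)
  refine Comp.sendOpt (fun N c => p N c ∧ Y ⊆ N ∧ Lab G σ.S θ N (σ.T ρ).Z ⊆ Y)
    (fun y N c => p N c ∧ ((σ.P ∪ X : Finset V) : Set V) = Lab G σ.S θ N ((σ.T ρ).sub (an c)) ∧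
      y ∉ Y ∧ ∃ s, (σ.T ρ).Up (an c) s ∧ s ≠ (σ.T ρ).root ∧
        Lab G σ.S θ N ((σ.T ρ).sub s) ⊆ Y ∧ y ∈ Lab G σ.S θ N ((σ.T ρ).sub ((σ.T ρ).par s)))
    (k' := B + (t - (σ.P.card + X.card))) ?_ ?_ (fun y => ?_) (by omega) le_rfl
  · rintro N c ⟨hc', -, -, hP⟩
    have hm := hp N c hc'
    rcases h.climb (fun z => Lab G σ.S θ N ((σ.T ρ).sub z) ⊆ Y) _ (ha c hm.mem).1
      (hP.ge.trans Set.subset_union_left) with h2 | ⟨s, a, b, d, e⟩
    · have h3 : (σ.T ρ).Z ⊆ (σ.T ρ).sub (σ.T ρ).root := fun z hz => ⟨hz, h.up_root z hz⟩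
      exact Or.inl ⟨hc', hYN N c hc' hP, (Lab.mono h3).trans h2⟩
    · obtain ⟨y, h3, h4⟩ := Set.not_subset.1 e
      exact Or.inr ⟨y, Lab.sub h3, hc', hP, h4, s, a, b, d, h3⟩
  · refine Comp.done {s ∈ (σ.T ρ).Z | ¬ HitS σ.S θ Y s} σ.R ?_ (by omega) hL
    rintro N c ⟨hc', h1, h2⟩
    have hm := hp N c hc'
    refine ⟨⟨hm.mem, fun hh => hm.unhit (hh.mono h1)⟩, hm.core.RN,
      fun s hs => hc.safe N s fun hh => hs.2 ?_⟩
    refine lab_hit h hde subset_rfl (fun z hz hh => ?_) h2 s hs.1 hh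
    have : z ≠ (σ.T ρ).root := by
      rintro rfl
      exact hde.unhit h hm.mem (h.up_root c hm.mem) hm.unhit hh
    exact ⟨this, (h z hz this).1⟩
  · refine Comp.of_ex ?_
    rintro ⟨N1, c1, -, -, hyY, -⟩
    obtain ⟨σ', e, a, b, d, f, g⟩ := restart (an := an) hc hρ hd (σ.P ∪ X) Y y
      (fun r hr hh => hyY (Or.inr ⟨r, hr, hh⟩))
    refine (hI σ' e y a b d fun hne => ?_).mono ?_ ?_ le_rfl
    · rw [f, ← Finset.coe_nonempty, hP0]
      exact (hp N0 c0 hc0).ne hne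
    · rintro N c ⟨hc', hP, -, s, h1, h2, h3, h4⟩
      exact g ne N c (hp N c hc') ha (Set.insert_subset (Lab.sub h4) (hYN N c hc' hP)) hyY hP.le
        s h1 h2 h3 h4
    · rw [f, Finset.card_union_of_disjoint hdis]

theorem tree_step [Fintype V] [DecidableEq V] {t B L' kF : ℕ} (hG : ¬ KM G t) (ht : 1 ≤ t)
    (hc : Core G S0 σ θ) (hρ : ρ ∈ σ.R) (hd : σ.d ρ = none) (ha : (σ.T ρ).An an)
    (hR : σ.R.card ≤ t + 1) {ne : Prop} {p : Set V → V → Prop}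
    (hp : ∀ N c, p N c → MV G σ θ ρ an ne N c)
    (hF : ∀ a, Comp S0 (fun N c => p N c ∧ an c = a) kF L') (hB : 3 * t + 2 ≤ B)
    (hk : kF + t ≤ B) (hL : 1 ≤ L')
    (hI : σ.R.card ≤ t → ∀ (σ' : St V) e y, DV G S0 σ' e → σ'.R = σ.R →
      σ'.d = Function.update σ.d ρ (some y) →
      (ne → σ'.P.Nonempty) → Comp S0 (IV G σ' e) (B + (t - σ'.P.card)) L') :
    Comp S0 p (B + (t - σ.P.card) + 1) (8 * t ^ 2 * L') := by
  by_cases hRt : σ.R.card ≤ t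
  · refine Comp.cases (fun N c => t ≤ (Lab G σ.S θ N ((σ.T ρ).sub (an c))).ncard)
      (big_step hG hc.val hc.thr (hc.ok ρ hρ) (hc.desc ρ hρ) ha σ.R hc.safe
        (fun N c h => ⟨(hp N c h).mem, (hp N c h).unhit, (hp N c h).core.RN⟩) hF hL ht
        (by omega) (by omega))
      ((light_step hc hρ hd ha hp (by omega) hL (hI hRt)).mono (fun _ _ h => h) le_rfl ?_) ?_
    · exact Nat.mul_le_mul_left _ (Nat.mul_le_mul_left _ (by nlinarith))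
    · exact le_of_eq (by ring)
  · refine (few_step hG hc hρ ha (by omega) hp hF).mono (fun _ _ h => h) (by omega) ?_
    exact Nat.mul_le_mul_right _ (by nlinarith)

end Pool.Agent.MP_dcb13e_co.H59
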