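import Pool.Agent.MP_dcb13e_co.H59.Basic

/-! Abstract Voronoi systems and their regrowth. -/

namespace Pool.Agent.MP_dcb13e_co.H59

open Relation

/-- arrival values of the sites, with predecessor trees -/
structure Sys (V : Type) where
  φ : V → V → ℕ
  top : ℕ
  pred : V → V → V
  rk : V → V → ℕ

variable {V : Type} {G : SimpleGraph V}

/-- the axioms of a Voronoi system -/
structure Sys.Valid (G : SimpleGraph V) (S : Sys V) : Prop where
  le_top : ∀ y s, S.φ y s ≤ S.top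
  self_min : ∀ y y', S.φ y y < S.top → y ≠ y' → S.φ y y < S.φ y' y
  inj : ∀ y y' s s', S.φ y s < S.top → S.φ y s = S.φ y' s' → y = y'
  pred : ∀ y s, S.φ y s < S.top → s ≠ y →
    G.Adj (S.pred y s) s ∧ S.φ y (S.pred y s) < S.top ∧ S.rk y (S.pred y s) < S.rk y s
  mono : ∀ y y' s, S.φ y' s < S.top → s ≠ y' →
    S.φ y (S.pred y' s) < S.φ y' (S.pred y' s) → S.φ y s < S.φ y' s

/-- an admissible threshold -/
structure Thr (S : Sys V) (θ : V → ℕ) : Prop where
  le : ∀ s, θ s ≤ S.top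
  pred : ∀ y s, S.φ y s < θ s → s ≠ y → S.φ y (S.pred y s) < θ (S.pred y s)

lemma thr_top {S : Sys V} (h : S.Valid G) : Thr S (fun _ => S.top) :=
  ⟨fun _ => le_rfl, fun y s h1 h2 => (h.pred y s h1 h2).2.1⟩

lemma thr_site {S : Sys V} (h : S.Valid G) (ρ : V) : Thr S (S.φ ρ) := by
  refine ⟨h.le_top ρ, fun y s h1 h2 => ?_⟩
  have hf : S.φ y s < S.top := lt_of_lt_of_le h1 (h.le_top _ _)
  have hp := (h.pred y s hf h2).2.1
  by_contra hn
  rcases (not_lt.1 hn).eq_or_lt with he | hl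
  · have := h.inj y ρ _ _ hp he.symm
    subst this
    exact lt_irrefl _ h1
  · exact lt_asymm h1 (h.mono ρ y s hf h2 hl)

lemma hit_self {S : Sys V} {θ : V → ℕ} (h : S.Valid G) (ht : Thr S θ) {y s : V}
    (hs : S.φ y s < θ s) : S.φ y y < θ y := by
  induction' hn : S.rk y s using Nat.strong_induction_on with n ih generalizing s
  by_cases hsy : s = y
  · exact hsy ▸ hs
  · exact ih _ (hn ▸ (h.pred y s (lt_of_lt_of_le hs (ht.le s)) hsy).2.2) (ht.pred y s hs hsy) rfl

/-- growth of a site from the vertices it hits -/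
inductive Reach (S : Sys V) (θ : V → ℕ) (ok e : V → V → Prop) (y : V) : V → ℕ → ℕ → Prop
  | base (s : V) : S.φ y s < θ s → Reach S θ ok e y s (S.φ y s) (S.rk y s)
  | step0 (u s : V) (n k : ℕ) : Reach S θ ok e y u n k → e u s → ¬ S.φ y s < θ s →
      Reach S θ ok e y s n (k + 1)
  | step1 (u s : V) (n k : ℕ) : Reach S θ ok e y u n k → ok u s → ¬ S.φ y s < θ s →
      Reach S θ ok e y s (n + S.top) (k + 1)

theorem grow [Finite V] {S : Sys V} {θ : V → ℕ} (h : S.Valid G) (ht : Thr S θ)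
    (ok e : V → V → Prop) (hok : ∀ u s, ok u s → G.Adj u s) (he : ∀ u s, e u s → G.Adj u s)
    (hinv : ∀ y u s, e u s → S.φ y u < θ u → S.φ y s < θ s) :
    ∃ S' : Sys V, S'.Valid G ∧
      (∀ y s, S.φ y s < θ s → S'.φ y s < S'.top ∧
        ∀ y', S.φ y s < S.φ y' s → S'.φ y s < S'.φ y' s) ∧
      (∀ y s, S'.φ y s < S'.top → S.φ y s < θ s ∨ ∃ u, ok u s ∨ e u s) ∧
      (∀ y s, S'.φ y s < S'.top →
        ∃ s0, S.φ y s0 < θ s0 ∧ ReflTransGen (fun u s => ok u s ∨ e u s) s0 s) ∧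
      (∀ y u s, S'.φ y u < S'.top → (ok u s ∨ e u s) → S'.φ y s < S'.top) ∧
      (∀ y u s, e u s → ¬ S.φ y s < θ s → S'.φ y s ≤ S'.φ y u) := by
  classical
  have fA : ∀ y s n k, Reach S θ ok e y s n k → S.φ y s < θ s → n = S.φ y s ∧ k = S.rk y s := by
    intro y s n k hr hs
    cases hr with
    | base => exact ⟨rfl, rfl⟩
    | step0 _ _ _ _ _ _ h3 => exact absurd hs h3
    | step1 _ _ _ _ _ _ h3 => exact absurd hs h3
  have fB : ∀ y s n k, Reach S θ ok e y s n k → ¬ S.φ y s < θ s → S.top ≤ n := by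
    intro y s n k hr
    induction hr with
    | base s h1 => intro h2; exact absurd h1 h2
    | step0 u s n k _ h2 h3 ih => intro _; exact ih (fun hu => h3 (hinv y u s h2 hu))
    | step1 u s n k _ _ _ _ => intro _; omega
  have fC : ∀ y s n k, Reach S θ ok e y s n k → ∃ s0, S.φ y s0 < θ s0 ∧ n % S.top = S.φ y s0 ∧
      ReflTransGen (fun u s => ok u s ∨ e u s) s0 s := by
    intro y s n k hr
    induction hr with
    | base s h1 => exact ⟨s, h1, Nat.mod_eq_of_lt (lt_of_lt_of_le h1 (ht.le s)), .refl⟩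
    | step0 u s n k _ h2 _ ih =>
      obtain ⟨s0, a, b, c⟩ := ih
      exact ⟨s0, a, b, c.tail (Or.inr h2)⟩
    | step1 u s n k _ h2 _ ih =>
      obtain ⟨s0, a, b, c⟩ := ih
      exact ⟨s0, a, by rw [Nat.add_mod_right]; exact b, c.tail (Or.inl h2)⟩
  let m : V → V → ℕ := fun y s => sInf {n | ∃ k, Reach S θ ok e y s n k}
  obtain ⟨B, hB⟩ := exists_bound (fun p : V × V => m p.1 p.2)
  let φ' : V → V → ℕ := fun y s => if ∃ n k, Reach S θ ok e y s n k then m y s else B
  let rk' : V → V → ℕ := fun y s => sInf {k | Reach S θ ok e y s (φ' y s) k}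
  have le' : ∀ y s, φ' y s ≤ B := by
    intro y s
    simp only [φ']
    split_ifs
    · exact (hB (y, s)).le
    · exact le_rfl
  have up : ∀ y s n k, Reach S θ ok e y s n k → φ' y s ≤ n ∧ φ' y s < B := by
    intro y s n k hr
    have hex : ∃ n k, Reach S θ ok e y s n k := ⟨n, k, hr⟩
    simp only [φ', if_pos hex]
    exact ⟨Nat.sInf_le ⟨k, hr⟩, hB (y, s)⟩
  have real : ∀ y s, φ' y s < B → Reach S θ ok e y s (φ' y s) (rk' y s) := by
    intro y s hs
    have hex : ∃ n k, Reach S θ ok e y s n k := by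
      by_contra hn
      simp only [φ', if_neg hn] at hs
      exact lt_irrefl _ hs
    have h1 : ∃ k, Reach S θ ok e y s (φ' y s) k := by
      simp only [φ', if_pos hex]
      exact Nat.sInf_mem (s := {n | ∃ k, Reach S θ ok e y s n k}) hex
    exact Nat.sInf_mem (s := {k | Reach S θ ok e y s (φ' y s) k}) h1
  have hitv : ∀ y s, S.φ y s < θ s → φ' y s < B ∧ φ' y s = S.φ y s ∧ rk' y s = S.rk y s := by
    intro y s hs
    have h1 := (up y s _ _ (Reach.base s hs)).2
    exact ⟨h1, fA y s _ _ (real y s h1) hs⟩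
  have st0 : ∀ y u s, e u s → ¬ S.φ y s < θ s → φ' y s ≤ φ' y u := by
    intro y u s h1 h2
    rcases (le' y u).eq_or_lt with h3 | h3
    · rw [h3]; exact le' y s
    · exact (up y s _ _ (Reach.step0 u s _ _ (real y u h3) h1 h2)).1
  have st1 : ∀ y u s, φ' y u < B → ok u s → ¬ S.φ y s < θ s → φ' y s ≤ φ' y u + S.top :=
    fun y u s h3 h1 h2 => (up y s _ _ (Reach.step1 u s _ _ (real y u h3) h1 h2)).1
  have ord : ∀ y s, S.φ y s < θ s → ∀ y', S.φ y s < S.φ y' s → φ' y s < φ' y' s := by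
    intro y s hs y' hy
    obtain ⟨h1, h2, _⟩ := hitv y s hs
    by_cases hs' : S.φ y' s < θ s
    · rw [h2, (hitv y' s hs').2.1]; exact hy
    · rcases (le' y' s).eq_or_lt with h3 | h3
      · rw [h3]; exact h1
      · have := fB y' s _ _ (real y' s h3) hs'
        have := ht.le s
        omega
  have hp : ∀ y s, ∃ u, (S.φ y s < θ s → u = S.pred y s) ∧ (¬ S.φ y s < θ s → φ' y s < B →
      φ' y u < B ∧ rk' y u < rk' y s ∧
        ((e u s ∧ φ' y s = φ' y u) ∨ (ok u s ∧ φ' y s = φ' y u + S.top))) := by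
    intro y s
    by_cases hs : S.φ y s < θ s
    · exact ⟨_, fun _ => rfl, fun h => absurd hs h⟩
    by_cases hf : φ' y s < B
    swap
    · exact ⟨s, fun h => absurd h hs, fun _ h => absurd h hf⟩
    have hr := real y s hf
    generalize hn : φ' y s = n at hr
    generalize hk : rk' y s = k at hr
    cases hr with
    | base _ h1 => exact absurd h1 hs
    | step0 u _ _ k h1 h2 _ =>
      refine ⟨u, fun h => absurd h hs, fun _ _ => ?_⟩
      have h3 := up y u _ _ h1
      have h4 := st0 y u s h2 hs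
      have h5 : φ' y u = n := by omega
      refine ⟨h3.2, Nat.lt_succ_of_le (Nat.sInf_le ?_), Or.inl ⟨h2, h5.symm⟩⟩
      show Reach S θ ok e y u (φ' y u) k
      rw [h5]; exact h1
    | step1 u _ n k h1 h2 _ =>
      refine ⟨u, fun h => absurd h hs, fun _ _ => ?_⟩
      have h3 := up y u _ _ h1
      have h4 := st1 y u s h3.2 h2 hs
      have h5 : φ' y u = n := by omega
      refine ⟨h3.2, Nat.lt_succ_of_le (Nat.sInf_le ?_), Or.inr ⟨h2, by rw [h5]⟩⟩
      show Reach S θ ok e y u (φ' y u) k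
      rw [h5]; exact h1
  choose pred' hp1 hp2 using hp
  refine ⟨⟨φ', B, pred', rk'⟩, ⟨le', ?_, ?_, ?_, ?_⟩, fun y s hs => ⟨(hitv y s hs).1, ord y s hs⟩,
    ?_, ?_, ?_, st0⟩
  · intro y y' hy hne
    obtain ⟨s0, h0, -⟩ := fC y y _ _ (real y y hy)
    have h1 := hit_self h ht h0
    exact ord y y h1 y' (h.self_min y y' (lt_of_lt_of_le h1 (ht.le y)) hne)
  · intro y y' s s' hs heq
    obtain ⟨s0, h0, h1, -⟩ := fC y s _ _ (real y s hs)
    obtain ⟨s1, h2, h3, -⟩ := fC y' s' _ _ (real y' s' (by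
      have : φ' y s = φ' y' s' := heq
      rw [← this]; exact hs))
    refine h.inj y y' s0 s1 (lt_of_lt_of_le h0 (ht.le _)) ?_
    rw [← h1, ← h3]
    exact congrArg (· % S.top) heq
  · intro y s hs hne
    show G.Adj (pred' y s) s ∧ φ' y (pred' y s) < B ∧ rk' y (pred' y s) < rk' y s
    by_cases hh : S.φ y s < θ s
    · rw [hp1 y s hh]
      have h1 := h.pred y s (lt_of_lt_of_le hh (ht.le _)) hne
      have h2 := hitv y _ (ht.pred y s hh hne)
      rw [h2.2.2, (hitv y s hh).2.2]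
      exact ⟨h1.1, h2.1, h1.2.2⟩
    · obtain ⟨h1, h2, h3⟩ := hp2 y s hh hs
      exact ⟨h3.elim (fun h => he _ _ h.1) (fun h => hok _ _ h.1), h1, h2⟩
  · intro y y' s hs hne hlt
    change φ' y (pred' y' s) < φ' y' (pred' y' s) at hlt
    show φ' y s < φ' y' s
    by_cases hh : S.φ y' s < θ s
    · rw [hp1 y' s hh] at hlt
      have h2 := ht.pred y' s hh hne
      have h3 := hitv y' _ h2
      have h4 : S.φ y (S.pred y' s) < θ (S.pred y' s) := by
        by_contra hn
        have := fB y _ _ _ (real y _ (hlt.trans h3.1)) hn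
        have := ht.le (S.pred y' s)
        omega
      rw [h3.2.1, (hitv y _ h4).2.1] at hlt
      have h5 := h.mono y y' s (lt_of_lt_of_le hh (ht.le _)) hne hlt
      exact ord y s (h5.trans hh) y' h5
    · by_cases hy : S.φ y s < θ s
      · exact ord y s hy y' (lt_of_lt_of_le hy (not_lt.1 hh))
      · obtain ⟨h1, -, ⟨h2, h3⟩ | ⟨h2, h3⟩⟩ := hp2 y' s hh hs
        · have := st0 y _ s h2 hy
          omega
        · have := st1 y _ s (hlt.trans h1) h2 hy
          omega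
  · intro y s hs
    by_cases hh : S.φ y s < θ s
    · exact Or.inl hh
    · obtain ⟨-, -, h3⟩ := hp2 y s hh hs
      exact Or.inr ⟨_, h3.symm.imp And.left And.left⟩
  · intro y s hs
    obtain ⟨s0, h0, -, h1⟩ := fC y s _ _ (real y s hs)
    exact ⟨s0, h0, h1⟩
  · intro y u s hu hus
    by_cases hh : S.φ y s < θ s
    · exact (hitv y s hh).1
    · rcases hus with h1 | h1
      · exact (up y s _ _ (Reach.step1 u s _ _ (real y u hu) h1 hh)).2
      · exact (up y s _ _ (Reach.step0 u s _ _ (real y u hu) h1 hh)).2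

theorem regrow [Finite V] {S : Sys V} {θ : V → ℕ} (h : S.Valid G) (ht : Thr S θ) (F : Set V)
    (e : V → V → Prop) (hs : ∀ u v, e u v → e v u) (he : ∀ u v, e u v → G.Adj u v ∧ v ∈ F) :
    ∃ S' : Sys V, S'.Valid G ∧
      (∀ y s, S.φ y s < θ s → S'.φ y s < S'.top ∧
        ∀ y', S.φ y s < S.φ y' s → S'.φ y s < S'.φ y' s) ∧
      (∀ y s, s ∉ F → S'.φ y s < S'.top → S.φ y s < θ s) ∧
      (∀ y s, S'.φ y s < S'.top → ∃ s0, S.φ y s0 < θ s0) ∧
      (∀ y u s, S'.φ y u < S'.top → G.Adj u s → s ∈ F → S'.φ y s < S'.top) ∧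
      (∀ y' u, (∀ x, ReflTransGen e u x → ¬ S.φ y' x < θ x) → ∀ s, e u s →
        S'.φ y' u = S'.φ y' s ∧ ∀ y, S'.φ y u < S'.φ y' u → S'.φ y s < S'.φ y' s) := by
  obtain ⟨A, vA, a1, a2, a3, a4, -⟩ := grow h ht e (fun _ _ => False) (fun u s h => (he u s h).1)
    (fun _ _ h => h.elim) (fun _ _ _ h => h.elim)
  obtain ⟨B, vB, b1, b2, b3, b4, b5⟩ := grow vA (thr_top vA) (fun u s => G.Adj u s ∧ s ∈ F) e
    (fun _ _ h => h.1) (fun u s h => (he u s h).1) (fun y u s h hu => a4 y u s hu (Or.inl h))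
  refine ⟨B, vB, fun y s hy => ?_, fun y s hF hy => ?_, fun y s hy => ?_,
    fun y u s hu h1 h2 => b4 y u s hu (Or.inl ⟨h1, h2⟩), fun y' u hu s hus => ?_⟩
  · obtain ⟨h1, h2⟩ := a1 y s hy
    exact ⟨(b1 y s h1).1, fun y' hy' => (b1 y s h1).2 y' (h2 y' hy')⟩
  · rcases b2 y s hy with h1 | ⟨u, h1 | h1⟩
    · rcases a2 y s h1 with h2 | ⟨u, h2 | h2⟩
      · exact h2
      · exact absurd (he _ _ h2).2 hF
      · exact h2.elim
    · exact absurd h1.2 hF
    · exact absurd (he _ _ h1).2 hF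
  · obtain ⟨s0, h0, -⟩ := b3 y s hy
    obtain ⟨s1, h1, -⟩ := a3 y s0 h0
    exact ⟨s1, h1⟩
  · have nu : ¬ A.φ y' u < A.top := by
      intro hf
      obtain ⟨s0, h0, h1⟩ := a3 y' u hf
      exact hu s0 (rtg_symm hs (rtg_mono (fun _ _ h => h.elim id False.elim) h1)) h0
    have ns : ¬ A.φ y' s < A.top := fun hf => nu (a4 y' s u hf (Or.inl (hs _ _ hus)))
    have heq : B.φ y' u = B.φ y' s := le_antisymm (b5 y' s u (hs _ _ hus) nu) (b5 y' u s hus ns)
    refine ⟨heq, fun y hy => ?_⟩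
    by_cases hf : A.φ y s < A.top
    · exact (b1 y s hf).2 y' (lt_of_lt_of_le hf (not_lt.1 ns))
    · have := b5 y u s hus hf
      omega

end Pool.Agent.MP_dcb13e_co.H59
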