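import Pool.Agent.MP_dcb13e_co.H59.Growth
import Pool.Agent.MP_dcb13e_co.H33.Dens
import Pool.Agent.MP_dcb13e_co.H47.Elim

/-! The step taken when no true site reaches the target. -/

namespace Pool.Agent.MP_dcb13e_co.H59

open Relation

variable {V : Type} {G : SimpleGraph V} {S0 : Sys V} {σ : St V} {e : V → V → Prop}

/-- the component of `s` among the free vertices -/
def St.cls (G : SimpleGraph V) (σ : St V) (s : V) : Set V :=
  {x | ReflTransGen (fun u v => G.Adj u v ∧ u ∈ σ.Free ∧ v ∈ σ.Free) s x}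

open Classical in
/-- the tree vertices next to `m` -/
noncomputable def St.att [Fintype V] (G : SimpleGraph V) (σ : St V) (m : Set V) : Finset V :=
  Finset.univ.filter fun x => x ∉ σ.Free ∧ ∃ u ∈ m, G.Adj x u

lemma mem_att [Fintype V] {m : Set V} {x : V} :
    x ∈ σ.att G m ↔ x ∉ σ.Free ∧ ∃ u ∈ m, G.Adj x u := by
  simp [St.att]

lemma cls_self (s : V) : s ∈ σ.cls G s := ReflTransGen.refl

lemma cls_eq {s x : V} (h : x ∈ σ.cls G s) : σ.cls G x = σ.cls G s :=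
  Set.ext fun _ => ⟨fun hz => ReflTransGen.trans h hz, fun hz => (inS_symm h).trans hz⟩

lemma cls_free {s x : V} (hs : s ∈ σ.Free) (h : x ∈ σ.cls G s) : x ∈ σ.Free := by
  rcases ReflTransGen.cases_tail h with rfl | ⟨b, -, h⟩
  · exact hs
  · exact h.2.2

lemma cls_disj {s s' : V} (h : σ.cls G s ≠ σ.cls G s') : Disjoint (σ.cls G s) (σ.cls G s') :=
  Set.disjoint_left.2 fun _ a b => h ((cls_eq a).symm.trans (cls_eq b))

lemma DV.cls_fin (hD : DV G S0 σ e) {y s x : V} (h : x ∈ σ.cls G s)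
    (hx : σ.S.φ y x < σ.S.top) : σ.S.φ y s < σ.S.top := by
  induction h with
  | refl => exact hx
  | tail _ h2 ih => exact ih (hD.spread y _ _ hx h2.1.symm h2.2.1)

lemma DV.cls_unhit (hD : DV G S0 σ e) {N : Set V} {c x : V}
    (hc : ¬ HitS σ.S (fun _ => σ.S.top) N c) (h : x ∈ σ.cls G c) :
    ¬ HitS σ.S (fun _ => σ.S.top) N x := fun ⟨y, a, b⟩ => hc ⟨y, a, hD.cls_fin h b⟩

lemma DV.att_unhit [Fintype V] (hD : DV G S0 σ e) {N : Set V} {c x : V} (hf : c ∈ σ.Free)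
    (hc : ¬ HitS σ.S (fun _ => σ.S.top) N c) (h : x ∈ σ.att G (σ.cls G c)) :
    ¬ HitS σ.S (fun _ => σ.S.top) N x := by
  obtain ⟨-, u, h1, h2⟩ := mem_att.1 h
  exact fun ⟨y, a, b⟩ => hD.cls_unhit hc h1 ⟨y, a, hD.spread y x u b h2 (cls_free hf h1)⟩

lemma DV.blob_cls (hD : DV G S0 σ e) {c u : V} (h : ReflTransGen e c u) : u ∈ σ.cls G c :=
  rtg_mono (fun u v h => ⟨(hD.adj u v h).1, (hD.adj v u (hD.sym _ _ h)).2, (hD.adj u v h).2⟩) h

lemma DV.chain [Fintype V] (hD : DV G S0 σ e) {y s : V} (hs : s ∈ σ.Free)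
    (h : σ.S.φ y s < σ.S.top) :
    y ∈ σ.cls G s ∨ ∃ x ∈ σ.att G (σ.cls G s), σ.S.φ y x < σ.S.top := by
  induction' hn : σ.S.rk y s using Nat.strong_induction_on with n ih generalizing s
  by_cases hsy : s = y
  · exact Or.inl (hsy ▸ cls_self s)
  obtain ⟨h1, h2, h3⟩ := hD.core.val.pred y s h hsy
  by_cases hp : σ.S.pred y s ∈ σ.Free
  · have h4 : σ.S.pred y s ∈ σ.cls G s := ReflTransGen.single ⟨h1.symm, hs, hp⟩
    rw [← cls_eq h4]
    exact ih _ (hn ▸ h3) hp h2 rfl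
  · exact Or.inr ⟨_, mem_att.2 ⟨hp, s, cls_self s, h1⟩, h2⟩

lemma class_fin [Fintype V] (hD : DV G S0 σ e) (A0 : Finset V) {p : Set V → V → Prop} {k L : ℕ}
    (hp : ∀ N c, p N c → IV G σ e N c ∧ ¬ HitS σ.S (fun _ => σ.S.top) N c ∧
      σ.att G (σ.cls G c) = A0) (hk : σ.R.card + 2 ≤ k) (hL : 4 ≤ L) : Comp S0 p k L := by
  classical
  let f : V → ℕ := fun s => Fintype.equivFin (Set V) (σ.cls G s)
  have hf : ∀ s s', f s = f s' → σ.cls G s = σ.cls G s' := fun s s' h =>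
    (Fintype.equivFin (Set V)).injective (Fin.ext h)
  refine Comp.gap f {s | s ∈ σ.Free ∧ σ.att G (σ.cls G s) = A0}
    {s | s ∈ σ.Free ∧ σ.att G (σ.cls G s) = A0 ∧ σ.S.φ s s < σ.S.top} σ.R (fun N c hc => ?_) hk hL
  obtain ⟨hi, hu, hA⟩ := hp N c hc
  refine ⟨⟨hi.free, hA⟩, hi.core.RN, fun y hy hy' h => ?_, fun s hs h => hD.core.safe N s ?_⟩
  · exact hD.cls_unhit hu (hf _ _ h ▸ cls_self y) ⟨y, hy, hy'.2.2⟩
  · rintro ⟨y, hy, hfin⟩
    rcases hD.chain hs.1 hfin with h1 | ⟨x, h1, h2⟩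
    · refine h y hy ⟨cls_free hs.1 h1, by rw [cls_eq h1]; exact hs.2,
        hit_self hD.core.val hD.core.thr hfin⟩ ?_
      simp only [f, cls_eq h1]
    · rw [hs.2, ← hA] at h1
      exact hD.att_unhit hi.free hu h1 ⟨y, hy, h2⟩

/-- the number of options of the finishing move -/
def finL (t : ℕ) : ℕ := 2 * ((t + 1) * ((beta t + 1) ^ t * (t + 4)))

lemma hub_fin [Fintype V] [DecidableEq V] {t k : ℕ} (hG : ¬ KM G t) (ht : 1 ≤ t)
    (hD : DV G S0 σ e) (T : Finset V) (E : Finset (Set V)) (hT : T.card ≤ beta t + 1)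
    (hE : E.card ≤ beta t) {p : Set V → V → Prop}
    (hp : ∀ N c, p N c → IV G σ e N c ∧ ¬ HitS σ.S (fun _ => σ.S.top) N c ∧
      (σ.cls G c ∈ E ∨ σ.att G (σ.cls G c) ⊆ T)) (hk : σ.R.card + 2 ≤ k) :
    Comp S0 p k (finL t) := by
  classical
  have hm : ∀ m : Set V, Comp S0 (fun N c => p N c ∧ σ.cls G c = m) k 1 := by
    intro m
    refine Comp.done m σ.R ?_ (by omega) le_rfl
    rintro N c ⟨hc, rfl⟩
    obtain ⟨hi, hu, -⟩ := hp N c hc
    exact ⟨cls_self c, hi.core.RN, fun s hs => hD.core.safe N s (hD.cls_unhit hu hs)⟩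
  refine Comp.cases (fun _ c => σ.cls G c ∈ E) ?_ ?_ le_rfl
  · refine Comp.choose E _ (fun N c h => ⟨_, h.2, h.1, rfl⟩) (fun m _ => hm m) hE ?_
    have h1 : beta t + 1 ≤ (beta t + 1) ^ t := Nat.le_self_pow (by omega) _
    nlinarith [Nat.zero_le ((beta t + 1) ^ t * t), Nat.zero_le (t * ((beta t + 1) ^ t * (t + 4)))]
  refine Comp.chooseSub T t (fun A N c => p N c ∧ A ⊆ σ.att G (σ.cls G c) ∧
    (σ.att G (σ.cls G c) = A ∨ A.card = t)) ?_ (fun A _ _ => ?_) hT (by omega) le_rfl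
  · rintro N c ⟨hc, hn⟩
    have h1 := (hp N c hc).2.2.resolve_left hn
    by_cases h2 : (σ.att G (σ.cls G c)).card ≤ t
    · exact ⟨_, h1, h2, hc, subset_rfl, Or.inl rfl⟩
    · obtain ⟨A, h3, h4⟩ := Finset.exists_subset_card_eq (not_le.1 h2).le
      exact ⟨A, h3.trans h1, h4.le, hc, h3, Or.inr h4⟩
  by_cases hA : A.card = t
  · refine Comp.choose (Finset.univ.filter fun m => (∃ s ∈ σ.Free, σ.cls G s = m) ∧
      A ⊆ σ.att G m) _ (fun N c h => ⟨σ.cls G c, ?_, h.1, rfl⟩) (fun m _ => hm m) (n := t) ?_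
      (by omega)
    · exact Finset.mem_filter.2 ⟨Finset.mem_univ _, ⟨c, (hp N c h.1).1.free, rfl⟩, h.2.1⟩
    · by_contra hn
      refine hG (few A _ (fun x => {x}) id hA.ge (not_le.1 hn).le (fun x _ => pc_single x)
        (fun m h => ?_) (fun x _ x' _ h => Set.disjoint_singleton.2 h) (fun m h m' h' hne => ?_)
        (fun x hx m h => ?_) (fun x hx m h => ?_))
      · obtain ⟨s, -, rfl⟩ := (Finset.mem_filter.1 h).2.1
        exact pc_cls (fun _ _ h => h.1) s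
      · obtain ⟨s, -, rfl⟩ := (Finset.mem_filter.1 h).2.1
        obtain ⟨s', -, rfl⟩ := (Finset.mem_filter.1 h').2.1
        exact cls_disj hne
      · obtain ⟨⟨s, hs, rfl⟩, h1⟩ := (Finset.mem_filter.1 h).2
        exact Set.disjoint_singleton_left.2 fun h2 => (mem_att.1 (h1 hx)).1 (cls_free hs h2)
      · obtain ⟨-, u, h1, h2⟩ := mem_att.1 ((Finset.mem_filter.1 h).2.2 hx)
        exact ⟨x, rfl, u, h1, h2⟩
  · exact class_fin hD A (fun N c h => ⟨(hp N c h.1).1, (hp N c h.1).2.1,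
      h.2.2.resolve_right hA⟩) hk (by omega)

lemma graft [Finite V] {T : Tr V} (h : T.Ok G) (F W : Set V) (ζ : V → V) (hF : Disjoint T.Z F)
    (hW : ∀ s ∈ W, s ∈ F ∧ ζ s ∈ T.Z ∧ ReflTransGen (fun u v => G.Adj u v ∧ v ∈ F) (ζ s) s ∧
      ∀ u ∈ F, G.Adj u s → u ∈ W ∧ ζ u = ζ s) :
    ∃ (T' : Tr V) (an : V → V), T'.Z = T.Z ∪ W ∧ T'.root = T.root ∧ T'.Ok G ∧ T'.An an ∧
      (∀ s ∈ T.Z, T'.par s = T.par s) ∧ ∀ s ∈ W, an s = ζ s := by
  classical
  choose par d hpar using exists_par (fun u v => G.Adj u v ∧ v ∈ F)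
  obtain ⟨B, hB⟩ := exists_bound T.rk
  have nF : ∀ s ∈ T.Z, s ∉ F := fun s hs => Set.disjoint_left.1 hF hs
  have key : ∀ s ∈ W, G.Adj (par (ζ s) s) s ∧ d (ζ s) (par (ζ s) s) < d (ζ s) s ∧
      (par (ζ s) s = ζ s ∨ (par (ζ s) s ∈ W ∧ ζ (par (ζ s) s) = ζ s)) := by
    intro s hs
    obtain ⟨a, b, c, d⟩ := hW s hs
    obtain ⟨h1, h2, h3⟩ := hpar (ζ s) s c (fun he => nF _ b (he ▸ a))
    refine ⟨h1.1, h3, ?_⟩
    rcases ReflTransGen.cases_tail h2 with h4 | ⟨_, -, h4⟩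
    · exact Or.inl h4
    · exact Or.inr (d _ h4.2 h1.1)
  refine ⟨⟨T.Z ∪ W, T.root, fun s => if s ∈ F then par (ζ s) s else T.par s,
    fun s => if s ∈ F then B + d (ζ s) s else T.rk s⟩, fun s => if s ∈ F then ζ s else s, rfl, rfl,
    ?_, ?_, fun s hs => if_neg (nF s hs), fun s hs => if_pos (hW s hs).1⟩
  · rintro s (hs | hs) hne
    · have h1 := h s hs hne
      simp only [if_neg (nF s hs), if_neg (nF _ h1.1)]
      exact ⟨Or.inl h1.1, h1.2⟩
    · obtain ⟨a, b, -⟩ := hW s hs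
      obtain ⟨h1, h2, h3 | ⟨h3, h4⟩⟩ := key s hs
      · simp only [if_pos a]
        rw [h3] at h1 ⊢
        simp only [if_neg (nF _ b)]
        have := hB (ζ s)
        exact ⟨Or.inl b, h1, by omega⟩
      · simp only [if_pos a, if_pos (hW _ h3).1, h4]
        exact ⟨Or.inr h3, h1, by omega⟩
  · rintro s (hs | hs)
    · simp only [if_neg (nF s hs)]
      exact ⟨Or.inl hs, trivial, fun h => absurd rfl h⟩
    · obtain ⟨a, b, -⟩ := hW s hs
      simp only [if_pos a, if_neg (nF _ b)]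
      refine ⟨Or.inl b, trivial, fun _ => ⟨fun he => nF _ (h.up b (h.up_root _ b)).1 (he ▸ a), ?_⟩⟩
      obtain ⟨-, -, h3 | ⟨h3, h4⟩⟩ := key s hs
      · rw [h3, if_neg (nF _ b)]
      · rw [if_pos (hW _ h3).1, h4]

theorem terminal_step [Fintype V] [DecidableEq V] {t B L' : ℕ} (hG : ¬ KM G t) (ht : 1 ≤ t)
    (hD : DV G S0 σ e) (hR : σ.R.card ≤ t) (hB : 3 * t + 2 ≤ B) (hL : finL t ≤ L')
    (hI : ∀ (σ' : St V) e', DV G S0 σ' e' → σ'.R.card ≤ t → meas t σ' < meas t σ →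
      Comp S0 (IV G σ' e') (B + (t - σ'.P.card)) L') :
    Comp S0 (fun N c => IV G σ e N c ∧ ¬ HitS σ.S (fun _ => σ.S.top) N c)
      (B + (t - σ.P.card) + 3) (2 * (t * (8 * t ^ 2 * L'))) := by
  classical
  have hc := hD.core
  have hL4 : 4 ≤ L' := by
    refine le_trans ?_ hL
    have h1 : 1 ≤ (beta t + 1) ^ t := Nat.one_le_pow _ _ (by omega)
    unfold finL
    nlinarith [Nat.zero_le ((beta t + 1) ^ t * t), Nat.zero_le (t * ((beta t + 1) ^ t * (t + 4)))]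
  refine Comp.of_ex ?_
  rintro ⟨N0, c0, hi0, hu0⟩
  have hP : ¬ σ.P.Nonempty := by
    rintro ⟨y, hy⟩
    obtain ⟨u, a, w, b, d⟩ := hi0.core.pend y hy
    have h1 := hD.blob_cls a
    exact hD.cls_unhit hu0 h1 ⟨y, d.1, hD.spread y w u d.2.1 b.symm (cls_free hi0.free h1)⟩
  have : Nonempty V := ⟨c0⟩
  let Y : Finset (Set V) := Finset.univ.filter fun m =>
    (∃ s ∈ σ.Free, σ.cls G s = m) ∧ (σ.att G m).Nonempty
  have mY : ∀ m, m ∈ Y ↔ (∃ s ∈ σ.Free, σ.cls G s = m) ∧ (σ.att G m).Nonempty := fun m => by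
    simp only [Y, Finset.mem_filter, Finset.mem_univ, true_and]
  obtain ⟨ζ, Sx, E, hζ, hSE⟩ := H47.elim_ne H33.dens G t hG
    (Finset.univ.filter fun x => x ∉ σ.Free) Y id (σ.att G)
    (fun m hm => by
      obtain ⟨s, -, rfl⟩ := ((mY m).1 hm).1
      exact pc_cls (fun _ _ h => h.1) s)
    (fun m hm m' hm' hne => by
      obtain ⟨s, -, rfl⟩ := ((mY m).1 hm).1
      obtain ⟨s', -, rfl⟩ := ((mY m').1 hm').1
      exact cls_disj hne)
    (fun m hm x hx h => by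
      obtain ⟨s, hs, rfl⟩ := ((mY m).1 hm).1
      exact (Finset.mem_filter.1 hx).2 (cls_free hs h))
    (fun m hm => ⟨fun x hx => Finset.mem_filter.2 ⟨Finset.mem_univ _, (mem_att.1 hx).1⟩,
      ((mY m).1 hm).2, fun x hx => (mem_att.1 hx).2⟩)
  refine Comp.cases (fun _ c => σ.att G (σ.cls G c) = ∅)
    (class_fin hD ∅ (fun N c h => ⟨h.1.1, h.1.2, h.2⟩) (by omega) ?_) ?_ le_rfl
  · have h1 : 1 ≤ t * (8 * t ^ 2) := Nat.mul_pos ht (by positivity)
    nlinarith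
  refine Comp.choose σ.R (fun r N c => IV G σ e N c ∧ ¬ HitS σ.S (fun _ => σ.S.top) N c ∧
    σ.cls G c ∈ Y ∧ ζ (σ.cls G c) ∈ (σ.T r).Z) ?_ (fun r hr => ?_) hR le_rfl
  · rintro N c ⟨⟨hi, hu⟩, hne⟩
    have h1 : σ.cls G c ∈ Y := (mY _).2 ⟨⟨c, hi.free, rfl⟩, Finset.nonempty_iff_ne_empty.2 hne⟩
    have h2 := (mem_att.1 (hζ _ h1).1).1
    simp only [St.Free, Set.mem_ofPred_eq, not_forall, not_not] at h2
    obtain ⟨r, hr, h2⟩ := h2
    exact ⟨r, hr, hi, hu, h1, h2⟩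
  let W : Set V := {s | s ∈ σ.Free ∧ σ.cls G s ∈ Y ∧ ζ (σ.cls G s) ∈ (σ.T r).Z}
  obtain ⟨Tg, an, gZ, gr, gok, gan, gpar, gζ⟩ := graft (hc.ok r hr) σ.Free W
    (fun s => ζ (σ.cls G s)) (Set.disjoint_left.2 fun s a b => b r hr a) (fun s hs => by
      refine ⟨hs.1, hs.2.2, ?_, fun u hu hus => ?_⟩
      · obtain ⟨-, u, h1, h2⟩ := mem_att.1 (hζ _ hs.2.1).1
        exact ReflTransGen.head ⟨h2, cls_free hs.1 h1⟩
          (rtg_mono (fun _ _ h => ⟨h.1, h.2.2⟩) (inS_symm h1))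
      · have h1 : σ.cls G u = σ.cls G s := cls_eq (ReflTransGen.single ⟨hus.symm, hs.1, hu⟩)
        exact ⟨⟨hu, h1 ▸ hs.2.1, h1 ▸ hs.2.2⟩, by rw [h1]⟩)
  have gup : ∀ z ∈ (σ.T r).Z, ∀ x, (σ.T r).Up z x → Tg.Up z x := by
    intro z hz x hx
    induction hx with
    | refl => exact Tr.Up.refl _ _
    | tail h1 h2 ih =>
      exact ReflTransGen.tail ih ⟨gr ▸ h2.1, (gpar _ ((hc.ok r hr).up hz h1).1).trans h2.2⟩
  let σm : St V := ⟨σ.R, Function.update σ.T r Tg, Function.update σ.d r none, σ.P, σ.S⟩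
  have T1 : σm.T r = Tg := Function.update_self ..
  have T2 : ∀ r', r' ≠ r → σm.T r' = σ.T r' := fun r' h => Function.update_of_ne h ..
  have d1 : ∀ r' y, σm.d r' = some y → r' ≠ r ∧ σ.d r' = some y := by
    intro r' y h
    change Function.update σ.d r none r' = some y at h
    by_cases he : r' = r
    · subst he; simp at h
    · exact ⟨he, by rwa [Function.update_of_ne he] at h⟩
  have gdisj : ∀ r' ∈ σ.R, r' ≠ r → Disjoint Tg.Z (σ.T r').Z := by
    intro r' hr' hne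
    rw [gZ, Set.disjoint_union_left]
    exact ⟨hc.disj r hr r' hr' hne.symm, Set.disjoint_left.2 fun s a b => a.1 r' hr' b⟩
  have gdesc : Tg.Desc σ.S (fun _ => σ.S.top) := by
    intro y s hs hne h
    have h1 := (gok s hs hne).2.1
    rw [gZ] at hs
    rcases hs with hs | hs
    · rw [gpar s hs] at h
      exact hc.desc r hr y s hs (gr ▸ hne) h
    · exact hD.spread y _ s h h1 hs.1
  have hcm : Core G S0 σm (fun _ => σ.S.top) := by
    refine ⟨hc.val, hc.thr, hc.link, hc.dead, fun r' hr' => ?_, fun a ha b hb hne => ?_,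
      fun r' hr' => ?_, fun r' hr' y h => ?_,
      fun a ha b hb y h h' => hc.dinj a ha b hb y (d1 a y h).2 (d1 b y h').2⟩
    · by_cases he : r' = r
      · rwa [he, T1]
      · rw [T2 r' he]; exact hc.ok r' hr'
    · by_cases h1 : a = r
      · rw [h1, T1, T2 b (h1 ▸ hne.symm)]
        exact gdisj b hb (h1 ▸ hne.symm)
      · by_cases h2 : b = r
        · rw [h2, T1, T2 a h1]
          exact (gdisj a ha h1).symm
        · rw [T2 a h1, T2 b h2]
          exact hc.disj a ha b hb hne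
    · by_cases he : r' = r
      · rwa [he, T1]
      · rw [T2 r' he]; exact hc.desc r' hr'
    · rw [T2 r' (d1 r' y h).1]
      exact hc.ns r' hr' y (d1 r' y h).2
  have hmv : ∀ N c, IV G σ e N c ∧ ¬ HitS σ.S (fun _ => σ.S.top) N c ∧
      σ.cls G c ∈ Y ∧ ζ (σ.cls G c) ∈ (σ.T r).Z →
      MV G σm (fun _ => σ.S.top) r an (σ.d r ≠ none) N c := by
    rintro N c ⟨hi, hu, h1, h2⟩
    have hcW : c ∈ W := ⟨hi.free, h1, h2⟩
    refine ⟨by rw [T1, gZ]; exact Or.inr hcW, hu, ⟨hi.core.RN, fun r' hr' hne => ?_,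
      fun y hy => absurd ⟨y, hy⟩ hP⟩, fun hne => ?_⟩
    · obtain ⟨v, a, ⟨u, b, b'⟩, d, f⟩ := hi.core.att r' hr' (by simp)
      have h3 := hD.blob_cls b
      have huW : u ∈ W := ⟨cls_free hi.free h3, cls_eq h3 ▸ h1, cls_eq h3 ▸ h2⟩
      rw [T2 r' hne]
      refine ⟨v, a, ⟨u, ⟨by rw [T1, gZ]; exact Or.inr huW, ?_, hD.cls_unhit hu h3⟩, b'⟩, d,
        fun y hy => f y (d1 r' y hy).2⟩
      rw [gζ u huW, gζ c hcW, cls_eq h3]
    · obtain ⟨y, hy⟩ := Option.ne_none_iff_exists'.1 hne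
      obtain ⟨v, -, -, -, f⟩ := hi.core.att r hr (by simp)
      have hyN : y ∈ N := Lab.sub (f y hy)
      obtain ⟨q, a, w, b, d⟩ := hc.ns r hr y hy _ h2
      rw [T1, gζ c hcW]
      have hZ : (σ.T r).Z ⊆ Tg.Z := gZ ▸ Set.subset_union_left
      have hq : q ∈ Tg.sub (ζ (σ.cls G c)) := ⟨hZ a.1, gup q a.1 _ a.2⟩
      by_contra hn
      rw [Set.not_nonempty_iff_eq_empty] at hn
      by_cases hh : HitS σ.S (fun _ => σ.S.top) N q
      · obtain ⟨x, h3, -⟩ := lab_hit gok gdesc (fun _ h => h.1) ((gok.sub_top (hZ h2)).hU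
          (hD.att_unhit hi.free hu (hζ _ h1).1)) hn.le q hq hh
        exact h3
      · obtain ⟨x, h3⟩ := HitS.best (S := σ.S) (θ := fun _ => σ.S.top) ⟨y, hyN, d⟩
        exact hn.le ⟨q, hq, hh, w, b, h3⟩
  refine (tree_step (B := B) (L' := L') (kF := t + 2) hG ht hcm hr (Function.update_self ..)
    (by rwa [T1]) (by show σ.R.card ≤ _; omega) hmv (fun a => ?_) hB
    (by omega) (by omega) fun h1 σ' e' y a b d f => hI σ' e' a (b ▸ h1) ?_).mono (fun _ _ h => h)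
    (by show B + (t - σ.P.card) + 1 ≤ _; omega) le_rfl
  · refine (hub_fin hG ht hD (insert a (Sx a)) (E a)
      ((Finset.card_insert_le _ _).trans (Nat.succ_le_succ (hSE a).1)) (hSE a).2 ?_
      (by omega)).mono (fun _ _ h => h) le_rfl hL
    rintro N c ⟨⟨hi, hu, h1, h2⟩, h3⟩
    rw [gζ c ⟨hi.free, h1, h2⟩] at h3
    exact ⟨hi, hu, h3 ▸ (hζ _ h1).2⟩
  · have h2 : (σ'.R.filter fun x => σ'.d x = none) ⊆
        (σ.R.filter fun x => σ.d x = none).erase r := by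
      intro x hx
      rw [Finset.mem_filter, b, d] at hx
      have h3 : x ≠ r := by
        rintro rfl
        simp at hx
      rw [Function.update_of_ne h3] at hx
      have h4 : Function.update σ.d r none x = none := hx.2
      rw [Function.update_of_ne h3] at h4
      exact Finset.mem_erase.2 ⟨h3, Finset.mem_filter.2 ⟨hx.1, h4⟩⟩
    have h3 := Finset.card_le_card h2
    have h5 : σ'.R.card = σ.R.card := by rw [b]
    by_cases hd : σ.d r = none
    · have h4 : r ∈ σ.R.filter fun x => σ.d x = none := Finset.mem_filter.2 ⟨hr, hd⟩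
      have h6 := Finset.card_erase_add_one h4
      unfold meas
      split_ifs <;> (convert_to _ < _ ; omega)
    · have h4 := f hd
      have h6 := Finset.card_erase_le (s := σ.R.filter fun x => σ.d x = none) (a := r)
      unfold meas
      rw [if_pos h4, if_neg hP]
      convert_to _ < _
      omega

theorem play [Fintype V] [DecidableEq V] {t : ℕ} (hG : ¬ KM G t) (ht : 1 ≤ t) (m : ℕ) :
    ∀ (σ : St V) (e : V → V → Prop), DV G S0 σ e → σ.R.card ≤ t → meas t σ < m →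
      Comp S0 (IV G σ e) (3 * t + 2 + 3 * m + (t - σ.P.card)) ((32 * t ^ 3) ^ m * finL t) := by
  induction m with
  | zero => intro _ _ _ _ h; omega
  | succ m ih =>
    intro σ e hD hR hm
    have h1 : finL t ≤ (32 * t ^ 3) ^ m * finL t :=
      Nat.le_mul_of_pos_left _ (by positivity)
    have h2 : 1 ≤ finL t := by unfold finL; exact Nat.succ_le_of_lt (by positivity)
    have hI : ∀ (σ' : St V) e', DV G S0 σ' e' → σ'.R.card ≤ t → meas t σ' < meas t σ →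
        Comp S0 (IV G σ' e') (3 * t + 2 + 3 * m + (t - σ'.P.card)) ((32 * t ^ 3) ^ m * finL t) :=
      fun σ' e' a b c => ih σ' e' a b (by omega)
    refine Comp.cases (fun N c => HitS σ.S (fun _ => σ.S.top) N c)
      ((growth_step hG ht hD hR (by omega) (h2.trans h1) hI).mono (fun _ _ h => h) (by omega) ?_)
      ((terminal_step hG ht hD hR (by omega) h1 hI).mono (fun _ _ h => h) (by omega) le_rfl)
      (le_of_eq (by ring))
    nlinarith [Nat.zero_le (t * (8 * t ^ 2 * ((32 * t ^ 3) ^ m * finL t))),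
      Nat.le_mul_of_pos_left (8 * t ^ 2 * ((32 * t ^ 3) ^ m * finL t)) ht]

end Pool.Agent.MP_dcb13e_co.H59
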