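import Pool.Agent.MP_dcb13e_co.H59.Comp

/-! Rooted trees, labels, piercing. -/

namespace Pool.Agent.MP_dcb13e_co.H59

open Relation

/-- a rooted tree given by a parent map -/
structure Tr (V : Type) where
  Z : Set V
  root : V
  par : V → V
  rk : V → ℕ

variable {V : Type} {G : SimpleGraph V}

/-- the parent map is a tree of `G` on `Z` -/
def Tr.Ok (G : SimpleGraph V) (T : Tr V) : Prop :=
  ∀ s ∈ T.Z, s ≠ T.root → T.par s ∈ T.Z ∧ G.Adj (T.par s) s ∧ T.rk (T.par s) < T.rk s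

/-- `x` is an ancestor of `z` -/
def Tr.Up (T : Tr V) (z x : V) : Prop :=
  ReflTransGen (fun a b => a ≠ T.root ∧ T.par a = b) z x

/-- the subtree below `z` -/
def Tr.sub (T : Tr V) (z : V) : Set V := {s | s ∈ T.Z ∧ T.Up s z}

/-- an anchor map: its fibres are subtrees rooted at the anchors -/
def Tr.An (T : Tr V) (an : V → V) : Prop :=
  ∀ s ∈ T.Z, an s ∈ T.Z ∧ an (an s) = an s ∧ (s ≠ an s → s ≠ T.root ∧ an (T.par s) = an s)

/-- `D` is closed under parents, except at `a` -/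
def Tr.Top (T : Tr V) (D : Set V) (a : V) : Prop :=
  D ⊆ T.Z ∧ a ∈ D ∧ ∀ s ∈ D, s ≠ a → s ≠ T.root ∧ T.par s ∈ D

variable {T : Tr V}

lemma Tr.Up.refl (T : Tr V) (z : V) : T.Up z z := ReflTransGen.refl

lemma Tr.Up.trans {a b c : V} (h1 : T.Up a b) (h2 : T.Up b c) : T.Up a c :=
  ReflTransGen.trans h1 h2

lemma Tr.up_par {s : V} (h : s ≠ T.root) : T.Up s (T.par s) := ReflTransGen.single ⟨h, rfl⟩

lemma Tr.Up.step {z x : V} (h : T.Up z x) (hne : z ≠ x) : z ≠ T.root ∧ T.Up (T.par z) x := by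
  rcases ReflTransGen.cases_head h with h | ⟨b, ⟨h1, rfl⟩, h2⟩
  · exact absurd h hne
  · exact ⟨h1, h2⟩

lemma Tr.Up.total {z a b : V} (h1 : T.Up z a) (h2 : T.Up z b) : T.Up a b ∨ T.Up b a :=
  ReflTransGen.total_of_right_unique (fun _ _ _ h h' => h.2.symm.trans h'.2) h1 h2

lemma Tr.Ok.up (h : T.Ok G) {z x : V} (hz : z ∈ T.Z) (hu : T.Up z x) :
    x ∈ T.Z ∧ T.rk x ≤ T.rk z := by
  induction hu with
  | refl => exact ⟨hz, le_rfl⟩
  | tail _ h2 ih =>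
    obtain ⟨h2, rfl⟩ := h2
    have := h _ ih.1 h2
    exact ⟨this.1, by omega⟩

lemma Tr.Ok.ind (h : T.Ok G) {Q : V → Prop}
    (hQ : ∀ s ∈ T.Z, (s ≠ T.root → Q (T.par s)) → Q s) : ∀ s ∈ T.Z, Q s := by
  intro s hs
  induction' hn : T.rk s using Nat.strong_induction_on with n ih generalizing s
  exact hQ s hs fun hr => ih _ (hn ▸ (h s hs hr).2.2) _ (h s hs hr).1 rfl

lemma Tr.Ok.up_root (h : T.Ok G) : ∀ z ∈ T.Z, T.Up z T.root := by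
  refine h.ind fun s _ ih => ?_
  by_cases hs : s = T.root
  · exact hs ▸ Tr.Up.refl T _
  · exact (Tr.up_par hs).trans (ih hs)

lemma Tr.Ok.climb (h : T.Ok G) (Q : V → Prop) : ∀ z ∈ T.Z, Q z →
    Q T.root ∨ ∃ s, T.Up z s ∧ s ≠ T.root ∧ Q s ∧ ¬ Q (T.par s) := by
  refine h.ind fun s _ ih hs => ?_
  by_cases hr : s = T.root
  · exact Or.inl (hr ▸ hs)
  by_cases hp : Q (T.par s)
  · exact (ih hr hp).imp id fun ⟨x, a, b⟩ => ⟨x, (Tr.up_par hr).trans a, b⟩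
  · exact Or.inr ⟨s, Tr.Up.refl T s, hr, hs, hp⟩

lemma Tr.Ok.desc (h : T.Ok G) {Q : V → Prop}
    (hQ : ∀ s ∈ T.Z, s ≠ T.root → Q (T.par s) → Q s) {z x : V} (hz : z ∈ T.Z) (hu : T.Up z x)
    (hx : Q x) : Q z := by
  induction hu with
  | refl => exact hx
  | tail h1 h2 ih =>
    obtain ⟨h2, rfl⟩ := h2
    exact ih (hQ _ (h.up hz h1).1 h2 hx)

lemma Tr.Ok.pc_top (h : T.Ok G) {D : Set V} {a : V} (hD : T.Top D a) : Pc G D :=
  pc_of_root (a := a) (f := T.par) (rk := T.rk) fun s hs hne =>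
    ⟨(hD.2.2 s hs hne).2, (h s (hD.1 hs) (hD.2.2 s hs hne).1).2⟩

lemma Tr.Ok.pc (h : T.Ok G) : Pc G T.Z := pc_of_root (a := T.root) h

lemma Tr.Ok.top_up (h : T.Ok G) {D : Set V} {a : V} (hD : T.Top D a) : ∀ s ∈ D, T.Up s a := by
  have : ∀ s ∈ T.Z, s ∈ D → T.Up s a := by
    refine h.ind fun s _ ih hs => ?_
    by_cases hsa : s = a
    · exact hsa ▸ Tr.Up.refl T _
    · obtain ⟨h1, h2⟩ := hD.2.2 s hs hsa
      exact (Tr.up_par h1).trans (ih h1 h2)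
  exact fun s hs => this s (hD.1 hs) hs

lemma Tr.Ok.not_up_par (h : T.Ok G) {s : V} (hs : s ∈ T.Z) (hr : s ≠ T.root) :
    ¬ T.Up (T.par s) s := fun hu => by
  have h1 := h s hs hr
  have := (h.up h1.1 hu).2
  omega

lemma Tr.Ok.top_mid (h : T.Ok G) {D : Set V} {a x z : V} (hD : T.Top D a) (hx : x ∈ D)
    (h1 : T.Up x z) (h2 : T.Up z a) : z ∈ D := by
  induction h1 with
  | refl => exact hx
  | @tail b _ h3 h4 ih =>
    obtain ⟨h4, rfl⟩ := h4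
    have hb := ih ((Tr.up_par h4).trans h2)
    refine (hD.2.2 b hb ?_).2
    rintro rfl
    exact h.not_up_par (hD.1 hb) h4 h2

lemma Tr.Ok.sub_top (h : T.Ok G) {z : V} (hz : z ∈ T.Z) : T.Top (T.sub z) z :=
  ⟨fun _ hs => hs.1, ⟨hz, Tr.Up.refl T z⟩, fun s hs hne =>
    ⟨(hs.2.step hne).1, (h s hs.1 (hs.2.step hne).1).1, (hs.2.step hne).2⟩⟩

lemma Tr.sub_mono {z x : V} (h : T.Up z x) : T.sub z ⊆ T.sub x :=
  fun _ hs => ⟨hs.1, hs.2.trans h⟩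

lemma Tr.Ok.up_an (h : T.Ok G) {an : V → V} (ha : T.An an) : ∀ s ∈ T.Z, T.Up s (an s) := by
  refine h.ind fun s hs ih => ?_
  by_cases hsa : s = an s
  · exact hsa ▸ Tr.Up.refl T _
  · obtain ⟨h1, h2⟩ := (ha s hs).2.2 hsa
    exact (Tr.up_par h1).trans (h2 ▸ ih h1)

lemma Tr.Ok.an_up (h : T.Ok G) {an : V → V} (ha : T.An an) {a : V} (haa : an a = a) :
    ∀ u ∈ T.Z, T.Up u a → T.Up (an u) a := by
  refine h.ind fun s hs ih hu => ?_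
  by_cases hsa : s = an s
  · exact hsa ▸ hu
  · obtain ⟨h1, h2⟩ := (ha s hs).2.2 hsa
    have hne : s ≠ a := by rintro rfl; exact hsa haa.symm
    exact h2 ▸ ih h1 (hu.step hne).2

lemma Tr.Ok.node_top (h : T.Ok G) {an : V → V} (ha : T.An an) {a : V} (hz : a ∈ T.Z)
    (haa : an a = a) : T.Top {s | s ∈ T.Z ∧ an s = a} a := by
  refine ⟨fun _ hs => hs.1, ⟨hz, haa⟩, fun s hs hne => ?_⟩
  obtain ⟨h1, h2⟩ := (ha s hs.1).2.2 (hs.2 ▸ hne)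
  exact ⟨h1, (h s hs.1 h1).1, h2.trans hs.2⟩

/-- packing or piercing for subtrees of a rooted tree -/
lemma Tr.Ok.pierce [Finite V] (h : T.Ok G) (n : ℕ) : ∀ 𝓕 : Set (Set V),
    (∀ D ∈ 𝓕, ∃ a, T.Top D a) →
    (∃ Q : Finset (Set V), Q.card = n ∧ (∀ D ∈ Q, D ∈ 𝓕) ∧
      ∀ D ∈ Q, ∀ D' ∈ Q, D ≠ D' → Disjoint D D') ∨
    ∃ Pts : Finset V, Pts.card < n ∧ ∀ D ∈ 𝓕, ∃ p ∈ Pts, p ∈ D := by
  classical
  induction n with
  | zero => exact fun _ _ => Or.inl ⟨∅, rfl, by simp, by simp⟩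
  | succ n ih =>
    intro 𝓕 hF
    by_cases hne : {a | ∃ D ∈ 𝓕, T.Top D a}.Nonempty
    swap
    · refine Or.inr ⟨∅, by simp, fun D hD => ?_⟩
      obtain ⟨a, ha⟩ := hF D hD
      exact absurd ⟨a, D, hD, ha⟩ hne
    obtain ⟨a0, ⟨D0, hD0, ht0⟩, hm⟩ := Set.exists_max_image _ T.rk (Set.toFinite _) hne
    have key : ∀ D ∈ 𝓕, a0 ∉ D → Disjoint D D0 := by
      intro D hD hn
      rw [Set.disjoint_left]
      intro s hs hs0
      obtain ⟨a, ha⟩ := hF D hD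
      have u1 := h.top_up ha s hs
      have u0 := h.top_up ht0 s hs0
      rcases u1.total u0 with h1 | h1
      · have hne : a ≠ a0 := by rintro rfl; exact hn ha.2.1
        obtain ⟨h2, h3⟩ := h1.step hne
        have h4 := h a (ha.1 ha.2.1) h2
        have h5 := (h.up h4.1 h3).2
        have := hm a ⟨D, hD, ha⟩
        omega
      · exact hn (h.top_mid ha hs u0 h1)
    rcases ih {D ∈ 𝓕 | a0 ∉ D} (fun D hD => hF D hD.1) with ⟨Q, h1, h2, h3⟩ | ⟨Pts, h1, h2⟩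
    · have hn : D0 ∉ Q := fun hq => (h2 D0 hq).2 ht0.2.1
      refine Or.inl ⟨insert D0 Q, by rw [Finset.card_insert_of_notMem hn, h1], ?_, ?_⟩
      · intro D hD
        rcases Finset.mem_insert.1 hD with rfl | hD
        · exact hD0
        · exact (h2 D hD).1
      · intro D hD D' hD' hne
        rcases Finset.mem_insert.1 hD with e | e <;> rcases Finset.mem_insert.1 hD' with e' | e'
        · exact absurd (e.trans e'.symm) hne
        · exact e ▸ (key D' (h2 D' e').1 (h2 D' e').2).symm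
        · exact e' ▸ key D (h2 D e).1 (h2 D e).2
        · exact h3 D e D' e' hne
    · refine Or.inr ⟨insert a0 Pts, lt_of_le_of_lt (Finset.card_insert_le _ _) (by omega),
        fun D hD => ?_⟩
      by_cases ha : a0 ∈ D
      · exact ⟨a0, by simp, ha⟩
      · obtain ⟨p, h3, h4⟩ := h2 D ⟨hD, ha⟩
        exact ⟨p, by simp [h3], h4⟩

/-- some site of `Λ` arrives at `s` before the threshold -/
def HitS (S : Sys V) (θ : V → ℕ) (Λ : Set V) (s : V) : Prop := ∃ y ∈ Λ, S.φ y s < θ s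

/-- `y` is the first site of `Λ` at `s`, and arrives before the threshold -/
def Best (S : Sys V) (θ : V → ℕ) (Λ : Set V) (y s : V) : Prop :=
  y ∈ Λ ∧ S.φ y s < θ s ∧ ∀ y' ∈ Λ, S.φ y s ≤ S.φ y' s

/-- the labels seen next to the unhit part of `D` -/
def Lab (G : SimpleGraph V) (S : Sys V) (θ : V → ℕ) (Λ D : Set V) : Set V :=
  {y | ∃ q ∈ D, ¬ HitS S θ Λ q ∧ ∃ w, G.Adj q w ∧ Best S θ Λ y w}

variable {S : Sys V} {θ : V → ℕ} {Λ N D : Set V}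

lemma HitS.mono {s : V} (h : HitS S θ Λ s) (hL : Λ ⊆ N) : HitS S θ N s :=
  let ⟨y, a, b⟩ := h; ⟨y, hL a, b⟩

lemma HitS.best [Finite V] {s : V} (h : HitS S θ Λ s) : ∃ y, Best S θ Λ y s := by
  obtain ⟨y, a, b⟩ := h
  obtain ⟨y', h1, h2⟩ := Set.exists_min_image Λ (fun y => S.φ y s) (Set.toFinite _) ⟨y, a⟩
  exact ⟨y', h1, lt_of_le_of_lt (h2 y a) b, h2⟩

lemma Best.hit {y s : V} (h : Best S θ Λ y s) : HitS S θ Λ s := ⟨y, h.1, h.2.1⟩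

lemma Best.sub {y s : V} (h : Best S θ N y s) (hL : Λ ⊆ N) (hy : y ∈ Λ) : Best S θ Λ y s :=
  ⟨hy, h.2.1, fun y' hy' => h.2.2 y' (hL hy')⟩

lemma Best.uniq (hv : S.Valid G) (ht : Thr S θ) {y y' s : V} (h : Best S θ Λ y s)
    (h' : Best S θ Λ y' s) : y = y' :=
  hv.inj y y' s s (lt_of_lt_of_le h.2.1 (ht.le s)) (le_antisymm (h.2.2 _ h'.1) (h'.2.2 _ h.1))

lemma Best.lt (hv : S.Valid G) (ht : Thr S θ) {y y' s : V} (h : Best S θ Λ y s) (hy : y' ∈ Λ)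
    (hne : y ≠ y') : S.φ y s < S.φ y' s :=
  lt_of_le_of_ne (h.2.2 _ hy) fun he => hne (hv.inj y y' s s (lt_of_lt_of_le h.2.1 (ht.le s)) he)

lemma pc_cell (hv : S.Valid G) (ht : Thr S θ) (y : V) : Pc G {w | Best S θ Λ y w} := by
  refine pc_of_root (a := y) (f := S.pred y) (rk := S.rk y) fun s hs hne => ?_
  have hf := lt_of_lt_of_le hs.2.1 (ht.le s)
  have hp := hv.pred y s hf hne
  refine ⟨⟨hs.1, ht.pred y s hs.2.1 hne, fun y' hy' => ?_⟩, hp.1, hp.2.2⟩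
  by_contra hn
  exact absurd (hv.mono y' y s hf hne (not_le.1 hn)) (not_lt.2 (hs.2.2 y' hy'))

lemma Lab.sub : Lab G S θ Λ D ⊆ Λ := fun _ ⟨_, _, _, _, _, h⟩ => h.1

lemma Lab.mono {D' : Set V} (h : D ⊆ D') : Lab G S θ Λ D ⊆ Lab G S θ Λ D' :=
  fun _ ⟨q, a, b⟩ => ⟨q, h a, b⟩

lemma Lab.down (hL : Λ ⊆ N) {y : V} (hy : y ∈ Lab G S θ N D) (hy' : y ∈ Λ) :
    y ∈ Lab G S θ Λ D :=
  let ⟨q, a, b, w, c, d⟩ := hy
  ⟨q, a, fun h => b (h.mono hL), w, c, d.sub hL hy'⟩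

/-- hits descend along the tree -/
def Tr.Desc (T : Tr V) (S : Sys V) (θ : V → ℕ) : Prop :=
  ∀ y, ∀ s ∈ T.Z, s ≠ T.root → S.φ y (T.par s) < θ (T.par s) → S.φ y s < θ s

lemma Tr.Desc.unhit (hd : T.Desc S θ) (h : T.Ok G) {z x : V} (hz : z ∈ T.Z) (hu : T.Up z x)
    (hn : ¬ HitS S θ Λ z) : ¬ HitS S θ Λ x :=
  fun ⟨y, a, b⟩ => hn ⟨y, a, h.desc (Q := fun s => S.φ y s < θ s) (hd y) hz hu b⟩

lemma lab_hit [Finite V] (h : T.Ok G) (hd : T.Desc S θ) (hD : D ⊆ T.Z)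
    (hU : ∀ s ∈ D, HitS S θ N s → s ≠ T.root ∧ T.par s ∈ D) (hY : Lab G S θ N D ⊆ Λ) :
    ∀ s ∈ D, HitS S θ N s → HitS S θ Λ s := by
  have : ∀ s ∈ T.Z, s ∈ D → HitS S θ N s → HitS S θ Λ s := by
    refine h.ind fun s hs ih hsD hh => ?_
    obtain ⟨h1, h2⟩ := hU s hsD hh
    by_cases hp : HitS S θ N (T.par s)
    · obtain ⟨y, a, b⟩ := ih h1 h2 hp
      exact ⟨y, a, hd y s hs h1 b⟩
    · obtain ⟨y, hy⟩ := hh.best
      exact ⟨y, hY ⟨_, h2, hp, s, (h s hs h1).2.1, hy⟩, hy.2.1⟩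
  exact fun s hs => this s (hD hs) hs

lemma lab_up [Finite V] (hv : S.Valid G) (ht : Thr S θ) (h : T.Ok G) (hd : T.Desc S θ)
    (hD : D ⊆ T.Z) (hU : ∀ s ∈ D, HitS S θ N s → s ≠ T.root ∧ T.par s ∈ D)
    (hY : Lab G S θ N D ⊆ Λ) (hL : Λ ⊆ N) : Lab G S θ Λ D ⊆ Lab G S θ N D := by
  rintro y ⟨q, a, b, w, c, d⟩
  have hq : ¬ HitS S θ N q := fun hh => b (lab_hit h hd hD hU hY q a hh)
  obtain ⟨y', hy'⟩ := (d.hit.mono hL).best
  have h1 : y' ∈ Lab G S θ N D := ⟨q, a, hq, w, c, hy'⟩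
  rwa [d.uniq hv ht (hy'.sub hL (hY h1))]

lemma Tr.Top.hU {a : V} (hD : T.Top D a) (ha : ¬ HitS S θ N a) :
    ∀ s ∈ D, HitS S θ N s → s ≠ T.root ∧ T.par s ∈ D :=
  fun s hs hh => hD.2.2 s hs (by rintro rfl; exact ha hh)

end Pool.Agent.MP_dcb13e_co.H59
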